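import Pool.Agent.X185.BS.Ext
set_option autoImplicit false
set_option linter.all false

open Metric Set Filter Topology

noncomputable section

namespace Pool.Agent.X185.BS

section
variable (f : ℂ → ℂ) (hd : DifferentiableOn ℂ f {z | 0 < z.im})
  (hm : ∀ z : ℂ, 0 < z.im → ‖f z‖ < 1)
include hd hm

/-- continuous extension to the closed half disc -/
theorem cont_ext (δ s0 K : ℝ) (hδ : 0 < δ) (hs0 : 0 < s0) (hK : 0 < K)
    (hb : ∀ x y : ℝ, |x| ≤ δ → 0 < y → y ≤ s0 →
      ‖deriv f (x + y * Complex.I)‖ ≤ K / Real.sqrt y)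
    (hb2 : ∀ x y : ℝ, |x| ≤ δ → 0 < y → y ≤ s0 →
      1 - ‖f (x + y * Complex.I)‖ ^ 2 ≤ 2 * K * Real.sqrt y) :
    ∃ R : ℝ, 0 < R ∧ ∃ L : ℂ → ℂ, ContinuousOn L {z | ‖z‖ < R ∧ 0 ≤ z.im} ∧
      (∀ z : ℂ, ‖z‖ < R → 0 < z.im → L z = f z) ∧ ∀ x : ℝ, |x| < R → ‖L x‖ = 1 := by
  obtain ⟨R, hR⟩ : ∃ R, R = min δ (s0 / 2) := ⟨_, rfl⟩
  have hR0 : 0 < R := by rw [hR]; exact lt_min hδ (by linarith)
  have hRδ : R ≤ δ := by rw [hR]; exact min_le_left _ _
  have hRs : R ≤ s0 / 2 := by rw [hR]; exact min_le_right _ _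
  obtain ⟨e, he⟩ : ∃ e : ℕ → ℝ, e = fun n : ℕ => s0 / 2 * (1 / ((n : ℝ) + 1)) := ⟨_, rfl⟩
  have he0 : ∀ n, 0 < e n := by intro n; rw [he]; simp only; positivity
  have hes : ∀ n, e n ≤ s0 / 2 := by
    intro n; rw [he]; simp only
    have : 1 / ((n : ℝ) + 1) ≤ 1 := by
      rw [div_le_one (by positivity)]; have := n.cast_nonneg (α := ℝ); linarith
    nlinarith
  have hanti : ∀ n m, n ≤ m → e m ≤ e n := by
    intro n m h; rw [he]; simp only
    have h1 : (n : ℝ) ≤ m := by exact_mod_cast h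
    have h2 : 1 / ((m : ℝ) + 1) ≤ 1 / ((n : ℝ) + 1) := by
      apply one_div_le_one_div_of_le (by positivity); linarith
    nlinarith
  have helim : Tendsto e atTop (𝓝 0) := by
    rw [he]
    have := (tendsto_one_div_add_atTop_nhds_zero_nat (𝕜 := ℝ)).const_mul (s0 / 2)
    simpa using this
  obtain ⟨b, hbd⟩ : ∃ b : ℕ → ℝ, b = fun n => 2 * K * Real.sqrt (e n) := ⟨_, rfl⟩
  have hblim : Tendsto b atTop (𝓝 0) := by
    rw [hbd]
    have h1 : Tendsto (fun n => Real.sqrt (e n)) atTop (𝓝 0) := by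
      have := (Real.continuous_sqrt.tendsto 0).comp helim
      rw [Real.sqrt_zero] at this
      exact this
    simpa using h1.const_mul (2 * K)
  have hcl : ∀ z : ℂ, ‖z‖ < R → 0 ≤ z.im → |z.re| ≤ δ ∧ z.im ≤ s0 / 2 := by
    intro z hz h0
    refine ⟨(Complex.abs_re_le_norm z).trans (by linarith), ?_⟩
    exact (le_abs_self _).trans ((Complex.abs_im_le_norm z).trans (by linarith))
  have hcau : ∀ z : ℂ, ‖z‖ < R → 0 ≤ z.im → ∀ n m, n ≤ m →
      ‖f (z + e n * Complex.I) - f (z + e m * Complex.I)‖ ≤ b n := by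
    intro z hz h0 n m hnm
    obtain ⟨h1, h2⟩ := hcl z hz h0
    rw [hbd]
    exact vert f hd hm δ s0 K hK hb z h1 h0 h2 (e m) (e n) (he0 m) (hanti n m hnm) (hes n)
  have hlim : ∀ z : ℂ, ‖z‖ < R → 0 ≤ z.im →
      ∃ l, Tendsto (fun n => f (z + e n * Complex.I)) atTop (𝓝 l) := by
    intro z hz h0
    apply cauchySeq_tendsto_of_complete
    apply cauchySeq_of_le_tendsto_0 (fun n => b n + b n)
    · intro n m N hn hm'
      rw [dist_eq_norm]
      have h1 := hcau z hz h0 N n hn
      have h2 := hcau z hz h0 N m hm'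
      have h3 : f (z + e n * Complex.I) - f (z + e m * Complex.I) =
          (f (z + e N * Complex.I) - f (z + e m * Complex.I)) -
            (f (z + e N * Complex.I) - f (z + e n * Complex.I)) := by ring
      rw [h3]
      exact (norm_sub_le _ _).trans (by linarith)
    · simpa using hblim.add hblim
  set L : ℂ → ℂ := fun z => limUnder atTop (fun n => f (z + e n * Complex.I)) with hL
  have hLt : ∀ z : ℂ, ‖z‖ < R → 0 ≤ z.im →
      Tendsto (fun n => f (z + e n * Complex.I)) atTop (𝓝 (L z)) := by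
    intro z hz h0
    exact tendsto_nhds_limUnder (hlim z hz h0)
  have hLd : ∀ z : ℂ, ‖z‖ < R → 0 ≤ z.im → ∀ n, ‖L z - f (z + e n * Complex.I)‖ ≤ b n := by
    intro z hz h0 n
    have h1 : Tendsto (fun m => ‖f (z + e n * Complex.I) - f (z + e m * Complex.I)‖) atTop
        (𝓝 ‖f (z + e n * Complex.I) - L z‖) := ((hLt z hz h0).const_sub _).norm
    rw [norm_sub_rev]
    apply le_of_tendsto h1
    filter_upwards [eventually_ge_atTop n] with m hm'
    exact hcau z hz h0 n m hm'
  have hunif : TendstoUniformlyOn (fun n z => f (z + e n * Complex.I)) L atTop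
      {z | ‖z‖ < R ∧ 0 ≤ z.im} := by
    rw [Metric.tendstoUniformlyOn_iff]
    intro ε hε
    filter_upwards [hblim.eventually (gt_mem_nhds hε)] with n hn z hz
    rw [dist_eq_norm]
    exact (hLd z hz.1 hz.2 n).trans_lt hn
  have hLc : ContinuousOn L {z | ‖z‖ < R ∧ 0 ≤ z.im} := by
    apply hunif.continuousOn
    apply Filter.Eventually.frequently
    filter_upwards with n
    apply hd.continuousOn.comp (by fun_prop)
    intro z hz
    show 0 < (z + e n * Complex.I).im
    have := he0 n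
    have h2 := hz.2
    simp
    linarith
  have hec : Tendsto (fun n => ((e n : ℝ) : ℂ)) atTop (𝓝 0) := by
    have := (Complex.continuous_ofReal.tendsto 0).comp helim
    rw [Complex.ofReal_zero] at this
    exact this
  refine ⟨R, hR0, L, hLc, ?_, ?_⟩
  · intro z hz h0
    have ho : IsOpen {z : ℂ | 0 < z.im} := isOpen_lt continuous_const Complex.continuous_im
    have h1 : ContinuousAt f z := (hd.differentiableAt (ho.mem_nhds h0)).continuousAt
    have h2 : Tendsto (fun n => z + e n * Complex.I) atTop (𝓝 z) := by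
      have := (hec.mul_const Complex.I).const_add z
      simpa using this
    exact tendsto_nhds_unique (hLt z hz h0.le) (h1.tendsto.comp h2)
  · intro x hx
    have hx' : ‖(x : ℂ)‖ < R := by rwa [Complex.norm_real]
    have ht := hLt x hx' (by simp)
    apply le_antisymm
    · apply le_of_tendsto ht.norm
      filter_upwards with n
      exact (hm _ (by simp; exact he0 n)).le
    · have h1 : 1 - ‖L x‖ ^ 2 ≤ 0 := by
        apply le_of_tendsto_of_tendsto ((ht.norm.pow 2).const_sub 1) hblim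
        filter_upwards with n
        rw [hbd]
        exact hb2 x (e n) (by linarith) (he0 n) (by linarith [hes n])
      nlinarith [norm_nonneg (L x)]

theorem hol_ext (δ s0 K : ℝ) (hδ : 0 < δ) (hs0 : 0 < s0) (hK : 0 < K)
    (hb : ∀ x y : ℝ, |x| ≤ δ → 0 < y → y ≤ s0 →
      ‖deriv f (x + y * Complex.I)‖ ≤ K / Real.sqrt y)
    (hb2 : ∀ x y : ℝ, |x| ≤ δ → 0 < y → y ≤ s0 →
      1 - ‖f (x + y * Complex.I)‖ ^ 2 ≤ 2 * K * Real.sqrt y) :
    ∃ r : ℝ, 0 < r ∧ ∃ F : ℂ → ℂ, DifferentiableOn ℂ F (ball 0 r) ∧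
      ∀ z : ℂ, ‖z‖ < r → 0 < z.im → F z = f z := by
  obtain ⟨R, hR0, L, hLc, hLf, hL1⟩ := cont_ext f hd hm δ s0 K hδ hs0 hK hb hb2
  obtain ⟨η, hη⟩ : ∃ η, η = L 0 := ⟨_, rfl⟩
  have hη1 : ‖η‖ = 1 := by
    rw [hη]; simpa using hL1 0 (by simpa using hR0)
  have h0S : (0 : ℂ) ∈ {z : ℂ | ‖z‖ < R ∧ 0 ≤ z.im} := by
    refine ⟨by simpa using hR0, by simp⟩
  obtain ⟨r1, hr1, hr1'⟩ := Metric.continuousWithinAt_iff.mp (hLc 0 h0S) 1 one_pos
  obtain ⟨r2, hr2⟩ : ∃ r2, r2 = min r1 R := ⟨_, rfl⟩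
  have hr20 : 0 < r2 := by rw [hr2]; exact lt_min hr1 hR0
  have hr2a : r2 ≤ r1 := by rw [hr2]; exact min_le_left _ _
  have hr2b : r2 ≤ R := by rw [hr2]; exact min_le_right _ _
  have hne : ∀ z : ℂ, ‖z‖ < r2 → 0 ≤ z.im → η + L z ≠ 0 := by
    intro z hz h0 hcon
    have h1 := hr1' (x := z) ⟨by linarith, h0⟩ (by simpa using lt_of_lt_of_le hz hr2a)
    rw [← hη, dist_eq_norm] at h1
    have h2 : L z = -η := by linear_combination hcon
    rw [h2] at h1
    have h3 : ‖-η - η‖ = 2 := by
      have : -η - η = -(2 * η) := by ring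
      rw [this, norm_neg, norm_mul, hη1]
      simp
    rw [h3] at h1
    norm_num at h1
  have ho : IsOpen {z : ℂ | 0 < z.im} := isOpen_lt continuous_const Complex.continuous_im
  obtain ⟨H, hH1, hH2⟩ := Pool.Agent.H18R3.refl
    (h := fun z => Complex.I * ((η - L z) / (η + L z))) (a := r2)
    (by
      apply continuousOn_const.mul
      have h1 : ContinuousOn L {z | ‖z‖ < r2 ∧ 0 ≤ z.im} :=
        hLc.mono (fun z hz => ⟨lt_of_lt_of_le hz.1 hr2b, hz.2⟩)
      exact (continuousOn_const.sub h1).div (continuousOn_const.add h1)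
        (fun z hz => hne z hz.1 hz.2))
    (by
      have h1 : DifferentiableOn ℂ L {z | ‖z‖ < r2 ∧ 0 < z.im} := by
        apply (hd.mono (fun z hz => hz.2)).congr
        intro z hz
        exact hLf z (lt_of_lt_of_le hz.1 hr2b) hz.2
      apply DifferentiableOn.const_mul
      exact ((differentiableOn_const _).sub h1).div ((differentiableOn_const _).add h1)
        (fun z hz => hne z hz.1 hz.2.le))
    (by
      intro x hx
      have h1 := hL1 x (by linarith)
      have hη2 : Complex.normSq η = 1 := by rw [Complex.normSq_eq_norm_sq, hη1]; norm_num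
      have hl2 : Complex.normSq (L x) = 1 := by rw [Complex.normSq_eq_norm_sq, h1]; norm_num
      rw [Complex.normSq_apply] at hη2 hl2
      have e1 : (Complex.I * ((η - L x) / (η + L x))).im = ((η - L x) / (η + L x)).re := by
        simp
      rw [e1, Complex.div_re, ← add_div]
      apply div_eq_zero_iff.mpr
      left
      simp only [Complex.sub_re, Complex.add_re, Complex.sub_im, Complex.add_im]
      linear_combination hη2 - hl2)
  have hH0 : H 0 = 0 := by
    rw [hH2 0 (by simpa using hr20) (by simp)]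
    simp [← hη]
  have hHc : ContinuousAt H 0 :=
    (hH1.differentiableAt (isOpen_ball.mem_nhds (mem_ball_self hr20))).continuousAt
  obtain ⟨r3, hr3, hr3'⟩ := Metric.continuousAt_iff.mp hHc 1 one_pos
  obtain ⟨r4, hr4⟩ : ∃ r4, r4 = min r2 r3 := ⟨_, rfl⟩
  have hr40 : 0 < r4 := by rw [hr4]; exact lt_min hr20 hr3
  have hr4a : r4 ≤ r2 := by rw [hr4]; exact min_le_left _ _
  have hr4b : r4 ≤ r3 := by rw [hr4]; exact min_le_right _ _
  refine ⟨r4, hr40, fun z => η * ((Complex.I - H z) / (Complex.I + H z)), ?_, ?_⟩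
  · apply DifferentiableOn.const_mul
    have h1 : DifferentiableOn ℂ H (ball 0 r4) := hH1.mono (ball_subset_ball hr4a)
    apply ((differentiableOn_const _).sub h1).div ((differentiableOn_const _).add h1)
    intro z hz hcon
    have h2 := hr3' (x := z) (lt_of_lt_of_le hz hr4b)
    rw [hH0, dist_zero_right] at h2
    have hcon' : Complex.I + H z = 0 := hcon
    have h3 : H z = -Complex.I := by linear_combination hcon'
    rw [h3] at h2
    simp at h2
  · intro z hz h0
    have hz2 : ‖z‖ < r2 := lt_of_lt_of_le hz hr4a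
    have h1 := hH2 z hz2 h0.le
    have h2 := hne z hz2 h0.le
    have h3 := hLf z (lt_of_lt_of_le hz2 hr2b) h0
    rw [← h3]
    simp only
    rw [h1]
    have hηne : η ≠ 0 := by
      intro h; rw [h] at hη1; simp at hη1
    have e1 : Complex.I - Complex.I * ((η - L z) / (η + L z)) =
        (2 * Complex.I * L z) / (η + L z) := by
      field_simp
      ring
    have e2 : Complex.I + Complex.I * ((η - L z) / (η + L z)) =
        (2 * Complex.I * η) / (η + L z) := by
      field_simp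
      ring
    rw [e1, e2, div_div_div_cancel_right₀ h2]
    have := Complex.I_ne_zero
    field_simp

end

end Pool.Agent.X185.BS
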