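import Pool.Agent.X185.BS.Outer
import Pool.Agent.X185.BS.Ext2
set_option autoImplicit false
set_option linter.all false

open Metric Set Filter Topology MeasureTheory

noncomputable section

namespace Pool.Agent.X185.BS

/-- the analytic continuation of an inner function has modulus one on the circle -/
theorem ext_norm_one (J : ℂ → ℂ) (hJ : IsInner J) (ζ : ℂ) (hζ : ‖ζ‖ = 1) (r : ℝ) (hr : 0 < r)
    (F : ℂ → ℂ) (hF : DifferentiableOn ℂ F (ball ζ r))
    (hFJ : ∀ z ∈ ball ζ r ∩ ball 0 1, F z = J z) : ‖F ζ‖ = 1 := by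
  obtain ⟨t0, ht0⟩ : ∃ t0 : ℝ, Complex.exp (t0 * Complex.I) = ζ := by
    refine ⟨Complex.arg ζ, ?_⟩
    have := Complex.norm_mul_exp_arg_mul_I ζ
    rw [hζ] at this
    simpa using this
  have hc : ContinuousAt (fun t : ℝ => Complex.exp (t * Complex.I)) t0 := by fun_prop
  have hFc : ContinuousAt F ζ :=
    (hF.differentiableAt (isOpen_ball.mem_nhds (mem_ball_self hr))).continuousAt
  have hh : ContinuousAt (fun t : ℝ => ‖F (Complex.exp (t * Complex.I))‖) t0 := by
    apply ContinuousAt.norm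
    apply ContinuousAt.comp (g := F) _ hc
    rw [ht0]; exact hFc
  have hev : ∀ᶠ t : ℝ in 𝓝 t0, Complex.exp (t * Complex.I) ∈ ball ζ r := by
    apply hc.eventually_mem
    rw [ht0]
    exact isOpen_ball.mem_nhds (mem_ball_self hr)
  have hdense : Dense {t : ℝ | ∃ η : ℂ, ‖η‖ = 1 ∧
      Tendsto (fun r : ℝ => J (r * Complex.exp (t * Complex.I))) (𝓝[<] 1) (𝓝 η)} :=
    Measure.dense_of_ae hJ.2.2
  have hfreq := mem_closure_iff_frequently.mp (hdense t0)
  have hfr2 : ∃ᶠ t : ℝ in 𝓝 t0, ‖F (Complex.exp (t * Complex.I))‖ = 1 := by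
    apply (hfreq.and_eventually hev).mono
    rintro t ⟨⟨η, hη, hl⟩, hm⟩
    have hz : Tendsto (fun r : ℝ => (r : ℂ) * Complex.exp (t * Complex.I)) (𝓝[<] 1)
        (𝓝 (Complex.exp (t * Complex.I))) := by
      have : ContinuousAt (fun r : ℝ => (r : ℂ) * Complex.exp (t * Complex.I)) 1 := by fun_prop
      have h2 := this.tendsto.mono_left (nhdsWithin_le_nhds (s := Iio 1))
      simpa using h2
    have hFt : Tendsto (fun r : ℝ => F (r * Complex.exp (t * Complex.I))) (𝓝[<] 1)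
        (𝓝 (F (Complex.exp (t * Complex.I)))) :=
      ((hF.differentiableAt (isOpen_ball.mem_nhds hm)).continuousAt.tendsto).comp hz
    have hnb : Ioo (0 : ℝ) 1 ∈ 𝓝[<] (1 : ℝ) := Ioo_mem_nhdsLT one_pos
    have hee : (fun r : ℝ => F (r * Complex.exp (t * Complex.I))) =ᶠ[𝓝[<] 1]
        (fun r : ℝ => J (r * Complex.exp (t * Complex.I))) := by
      filter_upwards [hnb, hz.eventually (isOpen_ball.mem_nhds hm)] with r hr' hr2
      apply hFJ
      refine ⟨hr2, ?_⟩
      rw [mem_ball_zero_iff, norm_e r t hr'.1.le]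
      exact hr'.2
    have h5 := tendsto_nhds_unique (hFt.congr' hee) hl
    rw [h5]; exact hη
  by_contra hcon
  have h6 : ∀ᶠ t : ℝ in 𝓝 t0, ‖F (Complex.exp (t * Complex.I))‖ ≠ 1 := by
    apply hh.eventually_ne
    rw [ht0]; exact hcon
  exact hfr2 (h6.mono fun t ht h => ht h)

/-- Cayley map from the upper half-plane to the disc -/
def Cay (z : ℂ) : ℂ := (Complex.I - z) / (Complex.I + z)

theorem cay_den (z : ℂ) (hz : 0 ≤ z.im) : Complex.I + z ≠ 0 := by
  intro h
  have := congrArg Complex.im h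
  simp at this
  linarith

theorem cay_norm (z : ℂ) (hz : 0 ≤ z.im) :
    1 - ‖Cay z‖ ^ 2 = 4 * z.im / ‖Complex.I + z‖ ^ 2 := by
  have h1 := cay_den z hz
  have h2 : 0 < ‖Complex.I + z‖ ^ 2 := by have := norm_pos_iff.mpr h1; positivity
  rw [Cay, norm_div, div_pow, eq_div_iff h2.ne', sub_mul, div_mul_cancel₀ _ h2.ne', one_mul]
  simp only [← Complex.normSq_eq_norm_sq, Complex.normSq_apply, Complex.add_re, Complex.add_im,
    Complex.sub_re, Complex.sub_im, Complex.I_re, Complex.I_im]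
  ring

theorem cay_hd (z : ℂ) (hz : 0 ≤ z.im) :
    HasDerivAt Cay (-(2 * Complex.I) / (Complex.I + z) ^ 2) z := by
  have h1 := cay_den z hz
  have h := ((hasDerivAt_id z).const_sub Complex.I).div ((hasDerivAt_id z).const_add Complex.I) h1
  have e : (-1 * (Complex.I + z) - (Complex.I - z) * 1) = -(2 * Complex.I) := by ring
  rw [← e]
  exact h

theorem cay_lt (z : ℂ) (hz : 0 < z.im) : ‖Cay z‖ < 1 := by
  have h := cay_norm z hz.le
  have h1 := cay_den z hz.le
  have h2 : 0 < ‖Complex.I + z‖ ^ 2 := by have := norm_pos_iff.mpr h1; positivity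
  have h3 : 0 < 4 * z.im / ‖Complex.I + z‖ ^ 2 := by positivity
  nlinarith [norm_nonneg (Cay z)]

theorem extend_main (θ : ℂ → ℂ) (hθ : IsInner θ)
    (hnc : ¬ ∃ c, ∀ z ∈ ball (0 : ℂ) 1, θ z = c) (J S O : ℂ → ℂ) (φ : ℝ → ℝ)
    (hF : IsFactorization (deriv θ) J S O φ) (ζ : ℂ) (hζ : ‖ζ‖ = 1) (hJ : ExtendsAt J ζ) :
    ExtendsAt θ ζ := by
  have hτ0 := tau_ineq θ hθ hnc J S O φ hF
  have hlt := inner_lt_one θ hθ hnc
  have hd := hθ.1
  obtain ⟨r, hr, Jt, hJd, hJe⟩ := hJ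
  have hJ1 := ext_norm_one J hF.inner_I ζ hζ r hr Jt hJd hJe
  have hJc : ContinuousAt (fun z => ‖Jt z‖) ζ :=
    (hJd.differentiableAt (isOpen_ball.mem_nhds (mem_ball_self hr))).continuousAt.norm
  have hJev : ∀ᶠ z in 𝓝 ζ, 1 - 1 / 100000 < ‖Jt z‖ ∧ z ∈ ball ζ r := by
    apply Filter.Eventually.and
    · apply hJc.eventually (lt_mem_nhds _)
      simp only [hJ1]; norm_num
    · exact isOpen_ball.mem_nhds (mem_ball_self hr)
  have hζ0 : ζ ≠ 0 := by intro h; rw [h] at hζ; simp at hζ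
  have hcc : (starRingEnd ℂ) ζ * ζ = 1 := by
    rw [mul_comm, Complex.mul_conj, Complex.normSq_eq_norm_sq, hζ]; simp
  -- pull back by the Cayley map
  have hCc : ContinuousAt (fun z => ζ * Cay z) 0 :=
    ((cay_hd 0 (by simp)).continuousAt).const_mul ζ
  have hC0 : ζ * Cay 0 = ζ := by
    rw [Cay, sub_zero, add_zero, div_self Complex.I_ne_zero, mul_one]
  have hev2 : ∀ᶠ z in 𝓝 (0 : ℂ), 1 - 1 / 100000 < ‖Jt (ζ * Cay z)‖ ∧ ζ * Cay z ∈ ball ζ r := by
    have hCt : Tendsto (fun z => ζ * Cay z) (𝓝 0) (𝓝 ζ) := by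
      have h := hCc.tendsto
      simp only [hC0] at h
      exact h
    exact hCt.eventually hJev
  obtain ⟨ρ, hρ, hρ'⟩ := Metric.eventually_nhds_iff.mp hev2
  set f : ℂ → ℂ := fun z => θ (ζ * Cay z) with hf
  have hmem : ∀ z : ℂ, 0 < z.im → ζ * Cay z ∈ ball (0 : ℂ) 1 := by
    intro z hz
    rw [mem_ball_zero_iff, norm_mul, hζ, one_mul]
    exact cay_lt z hz
  have hfh : ∀ z : ℂ, 0 < z.im → HasDerivAt f (deriv θ (ζ * Cay z) *
      (ζ * (-(2 * Complex.I) / (Complex.I + z) ^ 2))) z := by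
    intro z hz
    have h1 : HasDerivAt θ (deriv θ (ζ * Cay z)) (ζ * Cay z) :=
      (hd.differentiableAt (isOpen_ball.mem_nhds (hmem z hz))).hasDerivAt
    exact h1.comp z ((cay_hd z hz.le).const_mul ζ)
  have hfd : DifferentiableOn ℂ f {z | 0 < z.im} := fun z hz =>
    (hfh z hz).differentiableAt.differentiableWithinAt
  have hfm : ∀ z : ℂ, 0 < z.im → ‖f z‖ < 1 := by
    intro z hz
    exact hlt _ (by simpa using hmem z hz)
  have hτ : ∀ x y : ℝ, |x| ≤ ρ / 3 → 0 < y → y ≤ ρ / 3 →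
      (1 - 1 / 100000) * (1 - ‖f (x + y * Complex.I)‖ ^ 2) ≤
        2 * y * ‖deriv f (x + y * Complex.I)‖ := by
    intro x y hx hy hy1
    obtain ⟨p, hp⟩ : ∃ p : ℂ, p = x + y * Complex.I := ⟨_, rfl⟩
    have him : p.im = y := by rw [hp]; simp
    have hpi : 0 < p.im := by rw [him]; exact hy
    have hpn : ‖p‖ < ρ := by
      have h1 : ‖p‖ ≤ |x| + |y| := by
        rw [hp]
        refine (norm_add_le _ _).trans ?_
        rw [norm_mul, Complex.norm_I, Complex.norm_real, Complex.norm_real]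
        simp
      rw [abs_of_pos hy] at h1
      linarith
    rw [← hp]
    obtain ⟨h1, h2⟩ := hρ' (y := p) (by simpa using hpn)
    have h3 := hτ0 (ζ * Cay p) (by simpa using hmem p hpi)
    have h4 : Jt (ζ * Cay p) = J (ζ * Cay p) := hJe _ ⟨h2, hmem p hpi⟩
    rw [h4] at h1
    have h5 : 2 * y * ‖deriv f p‖ = ‖deriv θ (ζ * Cay p)‖ * (1 - ‖ζ * Cay p‖ ^ 2) := by
      rw [(hfh p hpi).deriv, norm_mul ζ, hζ, one_mul, cay_norm p hpi.le, him]
      simp only [norm_mul, norm_div, norm_neg, norm_pow, hζ, Complex.norm_I, Complex.norm_ofNat]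
      ring
    rw [h5]
    have h6 : 0 ≤ 1 - ‖f p‖ ^ 2 := by have := hfm p hpi; nlinarith [norm_nonneg (f p)]
    calc (1 - 1 / 100000) * (1 - ‖f p‖ ^ 2) ≤ ‖J (ζ * Cay p)‖ * (1 - ‖f p‖ ^ 2) :=
          mul_le_mul_of_nonneg_right h1.le h6
      _ ≤ _ := h3
  have hρ3 : 0 < ρ / 3 := by linarith
  obtain ⟨K, hK, hKb⟩ := local_bd f hfd hfm (ρ / 3) (ρ / 3) hρ3 hρ3 hτ
  obtain ⟨r2, hr2, F, hFd, hFe⟩ := hol_ext f hfd hfm (ρ / 3) (ρ / 3) K hρ3 hρ3 hK
    (fun x y h1 h2 h3 => (hKb x y h1 h2 h3).1) (fun x y h1 h2 h3 => (hKb x y h1 h2 h3).2)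
  -- push forward
  obtain ⟨A, hA⟩ : ∃ A : ℂ → ℂ, A = fun w => Complex.I * ((1 - (starRingEnd ℂ) ζ * w) /
    (1 + (starRingEnd ℂ) ζ * w)) := ⟨_, rfl⟩
  have hAden : ∀ w ∈ ball ζ 1, 1 + (starRingEnd ℂ) ζ * w ≠ 0 := by
    intro w hw h
    rw [mem_ball, dist_eq_norm] at hw
    have h1 : w = -ζ := by linear_combination ζ * h - w * hcc
    rw [h1] at hw
    have h2 : ‖-ζ - ζ‖ = 2 := by
      have : -ζ - ζ = -(2 * ζ) := by ring
      rw [this, norm_neg, norm_mul, hζ]; simp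
    rw [h2] at hw; norm_num at hw
  have hAd : DifferentiableOn ℂ A (ball ζ 1) := by
    rw [hA]
    apply DifferentiableOn.const_mul
    apply DifferentiableOn.div (by fun_prop) (by fun_prop)
    exact hAden
  have hA0 : A ζ = 0 := by rw [hA]; simp only [hcc]; simp
  have hAc : ContinuousAt A ζ :=
    (hAd.differentiableAt (isOpen_ball.mem_nhds (mem_ball_self one_pos))).continuousAt
  obtain ⟨r3, hr3, hr3'⟩ := Metric.continuousAt_iff.mp hAc r2 hr2
  refine ⟨min r3 1, lt_min hr3 one_pos, fun w => F (A w), ?_, ?_⟩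
  · apply hFd.comp (hAd.mono (ball_subset_ball (min_le_right _ _)))
    intro w hw
    have := hr3' (x := w) (lt_of_lt_of_le hw (min_le_left _ _))
    rw [hA0] at this
    exact this
  · rintro w ⟨hw, hw1⟩
    have h1 := hr3' (x := w) (lt_of_lt_of_le hw (min_le_left _ _))
    rw [hA0, dist_zero_right] at h1
    have hden := hAden w (ball_subset_ball (min_le_right _ _) hw)
    rw [mem_ball_zero_iff] at hw1
    obtain ⟨u, hud⟩ : ∃ u, u = (starRingEnd ℂ) ζ * w := ⟨_, rfl⟩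
    have hAw : A w = Complex.I * ((1 - u) / (1 + u)) := by rw [hA, hud]
    rw [← hud] at hden
    have him : 0 < (A w).im := by
      have hn : 0 < Complex.normSq (1 + u) := Complex.normSq_pos.mpr hden
      have hu : Complex.normSq u < 1 := by
        rw [Complex.normSq_eq_norm_sq, hud, norm_mul, RCLike.norm_conj, hζ, one_mul]
        nlinarith [norm_nonneg w]
      have e1 : (Complex.I * ((1 - u) / (1 + u))).im = ((1 - u) / (1 + u)).re := by simp
      have e : (A w).im = (1 - Complex.normSq u) / Complex.normSq (1 + u) := by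
        rw [hAw, e1, Complex.div_re, ← add_div]
        congr 1
        rw [Complex.normSq_apply]
        simp only [Complex.sub_re, Complex.add_re, Complex.sub_im, Complex.add_im, Complex.one_re,
          Complex.one_im]
        ring
      rw [e]
      apply div_pos _ hn
      linarith
    show F (A w) = θ w
    rw [hFe (A w) h1 him]
    show θ (ζ * Cay (A w)) = θ w
    congr 1
    have h7 : Cay (A w) = u := by
      have h8 := cay_den (A w) him.le
      rw [Cay, div_eq_iff h8, hAw]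
      field_simp
      ring
    rw [h7, hud]
    linear_combination w * hcc

theorem spectrum_subset (θ : ℂ → ℂ) (hθ : IsInner θ)
    (hnc : ¬ ∃ c, ∀ z ∈ ball (0 : ℂ) 1, θ z = c) (J S O : ℂ → ℂ) (φ : ℝ → ℝ)
    (hF : IsFactorization (deriv θ) J S O φ) :
    boundarySpectrum θ ⊆ boundarySpectrum J := by
  rintro ζ ⟨h1, h2⟩
  exact ⟨h1, fun h3 => h2 (extend_main θ hθ hnc J S O φ hF ζ h1 h3)⟩

end Pool.Agent.X185.BS
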