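import Mathlib
set_option autoImplicit false
set_option linter.all false

open Metric Set Filter Topology

noncomputable section

namespace Pool.Agent.X185.BS

theorem mob_id (a b : ℂ) : ‖1 - (starRingEnd ℂ) b * a‖ ^ 2 - ‖a - b‖ ^ 2 =
    (1 - ‖a‖ ^ 2) * (1 - ‖b‖ ^ 2) := by
  simp only [← Complex.normSq_eq_norm_sq, Complex.normSq_apply, Complex.sub_re, Complex.sub_im,
    Complex.mul_re, Complex.mul_im, Complex.one_re, Complex.one_im, Complex.conj_re,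
    Complex.conj_im]
  ring

theorem mob_ne (a b : ℂ) (ha : ‖a‖ < 1) (hb : ‖b‖ < 1) : 1 - (starRingEnd ℂ) b * a ≠ 0 := by
  intro h
  have h1 : (starRingEnd ℂ) b * a = 1 := (sub_eq_zero.mp h).symm
  have h2 := congrArg norm h1
  rw [norm_mul, RCLike.norm_conj, norm_one] at h2
  nlinarith [norm_nonneg a, norm_nonneg b]

theorem mob_lt (a b : ℂ) (ha : ‖a‖ < 1) (hb : ‖b‖ < 1) :
    ‖(a - b) / (1 - (starRingEnd ℂ) b * a)‖ < 1 := by
  rw [norm_div, div_lt_one (norm_pos_iff.mpr (mob_ne a b ha hb))]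
  have h := mob_id a b
  have h2 : 0 < (1 - ‖a‖ ^ 2) * (1 - ‖b‖ ^ 2) := by
    apply mul_pos <;> nlinarith [norm_nonneg a, norm_nonneg b]
  exact lt_of_pow_lt_pow_left₀ 2 (norm_nonneg _) (by linarith)

theorem schwarz_pick (f : ℂ → ℂ) (hd : DifferentiableOn ℂ f (ball 0 1))
    (hm : ∀ z, ‖z‖ < 1 → ‖f z‖ < 1) (z ζ : ℂ) (hz : ‖z‖ < 1) (hζ : ‖ζ‖ < 1) :
    ‖1 - (starRingEnd ℂ) (f ζ) * f z‖ ^ 2 * ((1 - ‖z‖ ^ 2) * (1 - ‖ζ‖ ^ 2)) ≤
      ‖1 - (starRingEnd ℂ) ζ * z‖ ^ 2 * ((1 - ‖f z‖ ^ 2) * (1 - ‖f ζ‖ ^ 2)) := by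
  set ψ : ℂ → ℂ := fun u => (u - (-ζ)) / (1 - (starRingEnd ℂ) (-ζ) * u) with hψdef
  have hψ : ∀ u, ‖u‖ < 1 → ‖ψ u‖ < 1 := fun u hu => mob_lt u (-ζ) hu (by rwa [norm_neg])
  have hψd : DifferentiableOn ℂ ψ (ball 0 1) := by
    apply DifferentiableOn.div
    · fun_prop
    · fun_prop
    · intro u hu
      exact mob_ne u (-ζ) (by simpa using hu) (by rwa [norm_neg])
  set F : ℂ → ℂ := fun u => (f (ψ u) - f ζ) / (1 - (starRingEnd ℂ) (f ζ) * f (ψ u)) with hFdef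
  have hFd : DifferentiableOn ℂ F (ball 0 1) := by
    have hc : DifferentiableOn ℂ (fun u => f (ψ u)) (ball 0 1) :=
      hd.comp hψd (fun u hu => by
        simpa using hψ u (by simpa using hu))
    apply DifferentiableOn.div
    · exact hc.sub_const _
    · exact (differentiableOn_const _).sub (hc.const_mul _)
    · intro u hu
      exact mob_ne _ _ (hm _ (hψ u (by simpa using hu))) (hm ζ hζ)
  have hF0 : F 0 = 0 := by
    have h0 : ψ 0 = ζ := by simp [hψdef]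
    show (f (ψ 0) - f ζ) / _ = 0
    rw [h0, sub_self, zero_div]
  have hFm : MapsTo F (ball 0 1) (closedBall 0 1) := by
    intro u hu
    rw [mem_closedBall_zero_iff]
    exact (mob_lt _ _ (hm _ (hψ u (by simpa using hu))) (hm ζ hζ)).le
  have hw : ‖(z - ζ) / (1 - (starRingEnd ℂ) ζ * z)‖ < 1 := mob_lt z ζ hz hζ
  have hD : 1 - (starRingEnd ℂ) ζ * z ≠ 0 := mob_ne z ζ hz hζ
  have hψw : ψ ((z - ζ) / (1 - (starRingEnd ℂ) ζ * z)) = z := by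
    obtain ⟨w, hwe⟩ : ∃ w, w = (z - ζ) / (1 - (starRingEnd ℂ) ζ * z) := ⟨_, rfl⟩
    rw [← hwe] at hw ⊢
    have hmul : w * (1 - (starRingEnd ℂ) ζ * z) = z - ζ := by
      rw [hwe]; exact div_mul_cancel₀ _ hD
    have hne : 1 - (starRingEnd ℂ) (-ζ) * w ≠ 0 := mob_ne w (-ζ) hw (by rwa [norm_neg])
    show (w - (-ζ)) / (1 - (starRingEnd ℂ) (-ζ) * w) = z
    rw [div_eq_iff hne]
    simp only [map_neg]
    linear_combination hmul
  have hS := Complex.norm_le_norm_of_mapsTo_ball hFd hFm hF0 hw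
  have hFw : F ((z - ζ) / (1 - (starRingEnd ℂ) ζ * z)) =
      (f z - f ζ) / (1 - (starRingEnd ℂ) (f ζ) * f z) := by
    show (f (ψ _) - f ζ) / (1 - (starRingEnd ℂ) (f ζ) * f (ψ _)) = _
    rw [hψw]
  rw [hFw, norm_div, norm_div, div_le_div_iff₀
    (norm_pos_iff.mpr (mob_ne _ _ (hm z hz) (hm ζ hζ))) (norm_pos_iff.mpr hD)] at hS
  have hS2 := pow_le_pow_left₀ (by positivity) hS 2
  rw [mul_pow, mul_pow] at hS2
  have h1 := mob_id (f z) (f ζ)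
  have h2 := mob_id z ζ
  have h3 : ‖f z - f ζ‖ ^ 2 = ‖1 - (starRingEnd ℂ) (f ζ) * f z‖ ^ 2 -
    (1 - ‖f z‖ ^ 2) * (1 - ‖f ζ‖ ^ 2) := by linarith
  have h4 : ‖z - ζ‖ ^ 2 = ‖1 - (starRingEnd ℂ) ζ * z‖ ^ 2 -
    (1 - ‖z‖ ^ 2) * (1 - ‖ζ‖ ^ 2) := by linarith
  rw [h3, h4] at hS2
  nlinarith


end Pool.Agent.X185.BS
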