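import Mathlib
set_option autoImplicit false
set_option linter.all false

open Metric Set Filter Topology MeasureTheory

noncomputable section

namespace Pool.Agent.X185.BS

/-- An inner function: a bounded holomorphic function on the unit disc whose radial limit at
`exp (i t)` exists and has modulus `1` for almost every `t`. -/
def IsInner (f : ℂ → ℂ) : Prop :=
  DifferentiableOn ℂ f (ball 0 1) ∧ (∃ M : ℝ, ∀ z ∈ ball (0 : ℂ) 1, ‖f z‖ ≤ M) ∧
    ∀ᵐ t : ℝ, ∃ η : ℂ, ‖η‖ = 1 ∧
      Tendsto (fun r : ℝ => f (r * Complex.exp (t * Complex.I))) (𝓝[<] 1) (𝓝 η)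

/-- The Poisson integral of the function `h` on the unit circle, written in the angle `t`. -/
def poissonInt (h : ℝ → ℝ) (z : ℂ) : ℝ :=
  (2 * Real.pi)⁻¹ * ∫ t in (0 : ℝ)..2 * Real.pi,
    (1 - ‖z‖ ^ 2) / ‖Complex.exp (t * Complex.I) - z‖ ^ 2 * h t

/-- `f = I · O / S` on the unit disc, where `I` is inner, `S` is a zero-free inner function and
`O` is the outer function whose boundary modulus is the modulus `φ` of the radial limits
of `f`.  The canonical factorization of a function `f` of the Nevanlinna class is of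
this form, with `I` the inner factor of `f`. -/
structure IsFactorization (f I S O : ℂ → ℂ) (φ : ℝ → ℝ) : Prop where
  inner_I : IsInner I
  inner_S : IsInner S
  S_ne : ∀ z ∈ ball (0 : ℂ) 1, S z ≠ 0
  O_hol : DifferentiableOn ℂ O (ball 0 1)
  log_int : IntervalIntegrable (fun t => Real.log (φ t)) volume 0 (2 * Real.pi)
  O_eq : ∀ z ∈ ball (0 : ℂ) 1, ‖O z‖ = Real.exp (poissonInt (fun t => Real.log (φ t)) z)
  bdry : ∀ᵐ t : ℝ, Tendsto (fun r : ℝ => ‖f (r * Complex.exp (t * Complex.I))‖) (𝓝[<] 1)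
    (𝓝 (φ t))
  eq : ∀ z ∈ ball (0 : ℂ) 1, S z * f z = I z * O z

/-- `f` (given on the unit disc) continues holomorphically to a neighbourhood of `ζ`. -/
def ExtendsAt (f : ℂ → ℂ) (ζ : ℂ) : Prop :=
  ∃ r : ℝ, 0 < r ∧ ∃ F : ℂ → ℂ, DifferentiableOn ℂ F (ball ζ r) ∧
    ∀ z ∈ ball ζ r ∩ ball 0 1, F z = f z

/-- The boundary spectrum: the points of the unit circle at which `f` has no holomorphic
continuation. -/
def boundarySpectrum (f : ℂ → ℂ) : Set ℂ := {ζ | ‖ζ‖ = 1 ∧ ¬ ExtendsAt f ζ}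

end Pool.Agent.X185.BS
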