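import Pool.Agent.X185.BS.Half
import Pool.Agent.H18R3.Refl
set_option autoImplicit false
set_option linter.all false

open Metric Set Filter Topology

noncomputable section

namespace Pool.Agent.X185.BS

section
variable (f : ℂ → ℂ) (hd : DifferentiableOn ℂ f {z | 0 < z.im})
  (hm : ∀ z : ℂ, 0 < z.im → ‖f z‖ < 1)
include hd hm

theorem local_bd (δ s0 : ℝ) (hδ : 0 < δ) (hs0 : 0 < s0)
    (hτ : ∀ x y : ℝ, |x| ≤ δ → 0 < y → y ≤ s0 →
      (1 - 1 / 100000) * (1 - ‖f (x + y * Complex.I)‖ ^ 2) ≤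
        2 * y * ‖deriv f (x + y * Complex.I)‖) :
    ∃ K : ℝ, 0 < K ∧ ∀ x y : ℝ, |x| ≤ δ → 0 < y → y ≤ s0 →
      ‖deriv f (x + y * Complex.I)‖ ≤ K / Real.sqrt y ∧
      1 - ‖f (x + y * Complex.I)‖ ^ 2 ≤ 2 * K * Real.sqrt y := by
  have him : ∀ x y : ℝ, ((x : ℂ) + y * Complex.I).im = y := by intro x y; simp
  -- compactness
  obtain ⟨M, hM⟩ : ∃ M : ℝ, ∀ x y : ℝ, |x| ≤ δ → s0 ≤ y → y ≤ 3 * s0 →
      Y (f (x + y * Complex.I)) ≤ M := by
    have hK : IsCompact (Icc (-δ) δ ×ˢ Icc s0 (3 * s0)) := isCompact_Icc.prod isCompact_Icc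
    have hc : ContinuousOn (fun p : ℝ × ℝ => Y (f ((p.1 : ℂ) + (p.2 : ℂ) * Complex.I)))
        (Icc (-δ) δ ×ˢ Icc s0 (3 * s0)) := by
      have h1 : ContinuousOn (fun p : ℝ × ℝ => f ((p.1 : ℂ) + (p.2 : ℂ) * Complex.I))
          (Icc (-δ) δ ×ˢ Icc s0 (3 * s0)) := by
        apply hd.continuousOn.comp (by fun_prop)
        intro p hp
        show 0 < ((p.1 : ℂ) + (p.2 : ℂ) * Complex.I).im
        rw [him]
        exact lt_of_lt_of_le hs0 hp.2.1
      unfold Y
      apply ContinuousOn.div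
      · exact continuousOn_const.add (h1.norm.pow 2)
      · exact continuousOn_const.sub (h1.norm.pow 2)
      · intro p hp
        have h2 := hm ((p.1 : ℂ) + (p.2 : ℂ) * Complex.I) (by
          rw [him]; exact lt_of_lt_of_le hs0 hp.2.1)
        have : 0 < 1 - ‖f ((p.1 : ℂ) + (p.2 : ℂ) * Complex.I)‖ ^ 2 := by
          nlinarith [norm_nonneg (f ((p.1 : ℂ) + (p.2 : ℂ) * Complex.I))]
        exact this.ne'
    obtain ⟨M, hM⟩ := hK.bddAbove_image hc
    refine ⟨M, fun x y hx hy1 hy2 => ?_⟩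
    apply hM
    refine ⟨(x, y), ⟨?_, ?_⟩, rfl⟩
    · exact abs_le.mp hx
    · exact ⟨hy1, hy2⟩
  set C : ℝ := 4 ^ (⌈M⌉₊ + 1) with hC
  have hC0 : 0 < C := by rw [hC]; positivity
  refine ⟨Real.sqrt (C / s0), Real.sqrt_pos.mpr (by positivity), ?_⟩
  intro x y hx hy hy1
  have hg := growth (fun s => Y (f (x + s * Complex.I))) s0 M hs0
    (fun s hs => Y_ge_one _ (hm _ (by rw [him]; exact hs)))
    (fun s hs1 hs2 => hM x s hx hs1.le hs2)
    (fun s hs hs1 => by
      have := hp_step f hd hm x s hs (hτ x s hx hs hs1)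
      simpa using this) y hy hy1
  rw [← hC] at hg
  have hsp := hp_sp f hd hm x y hy
  have hf := hm (x + y * Complex.I) (by rw [him]; exact hy)
  have hY1 := Y_ge_one _ hf
  set a := f (x + y * Complex.I) with ha
  have hX : 0 < 1 - ‖a‖ ^ 2 := by nlinarith [norm_nonneg a]
  have hXY : (1 - ‖a‖ ^ 2) * Y a ≤ 2 := by
    rw [Y, mul_div_cancel₀ _ hX.ne']
    nlinarith [norm_nonneg a]
  have hsy : 0 < Real.sqrt y := Real.sqrt_pos.mpr hy
  have hsy2 : Real.sqrt y * Real.sqrt y = y := Real.mul_self_sqrt hy.le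
  have hY2 : 1 ≤ Real.sqrt y * Y a * Real.sqrt (C / s0) := by
    have h1 : 1 ≤ (Real.sqrt y * Y a * Real.sqrt (C / s0)) ^ 2 := by
      rw [mul_pow, mul_pow, Real.sq_sqrt hy.le, Real.sq_sqrt (by positivity),
        ← mul_div_assoc, le_div_iff₀ hs0, one_mul]
      exact hg
    have h2 : 0 ≤ Real.sqrt y * Y a * Real.sqrt (C / s0) := by positivity
    nlinarith
  have hX2 : 1 - ‖a‖ ^ 2 ≤ 2 * Real.sqrt (C / s0) * Real.sqrt y := by
    have hk : 0 ≤ Real.sqrt (C / s0) * Real.sqrt y := by positivity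
    calc 1 - ‖a‖ ^ 2 ≤ (1 - ‖a‖ ^ 2) * (Real.sqrt y * Y a * Real.sqrt (C / s0)) := by
          nlinarith
      _ = ((1 - ‖a‖ ^ 2) * Y a) * (Real.sqrt (C / s0) * Real.sqrt y) := by ring
      _ ≤ 2 * (Real.sqrt (C / s0) * Real.sqrt y) := mul_le_mul_of_nonneg_right hXY hk
      _ = 2 * Real.sqrt (C / s0) * Real.sqrt y := by ring
  refine ⟨?_, hX2⟩
  rw [le_div_iff₀ hsy]
  have h3 : 2 * y * ‖deriv f (x + y * Complex.I)‖ ≤ 2 * Real.sqrt (C / s0) * Real.sqrt y :=
    hsp.trans hX2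
  have h4 : 2 * Real.sqrt y * (‖deriv f (x + y * Complex.I)‖ * Real.sqrt y) ≤
      2 * Real.sqrt y * Real.sqrt (C / s0) := by
    calc 2 * Real.sqrt y * (‖deriv f (x + y * Complex.I)‖ * Real.sqrt y) =
        2 * (Real.sqrt y * Real.sqrt y) * ‖deriv f (x + y * Complex.I)‖ := by ring
      _ = 2 * y * ‖deriv f (x + y * Complex.I)‖ := by rw [hsy2]
      _ ≤ 2 * Real.sqrt (C / s0) * Real.sqrt y := h3
      _ = 2 * Real.sqrt y * Real.sqrt (C / s0) := by ring
  exact le_of_mul_le_mul_left h4 (by positivity)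

/-- Cauchy estimate for vertical translates -/
theorem vert (δ s0 K : ℝ) (hK : 0 < K)
    (hb : ∀ x y : ℝ, |x| ≤ δ → 0 < y → y ≤ s0 →
      ‖deriv f (x + y * Complex.I)‖ ≤ K / Real.sqrt y)
    (z : ℂ) (hz1 : |z.re| ≤ δ) (hz2 : 0 ≤ z.im) (hz3 : z.im ≤ s0 / 2) (e e' : ℝ) (he : 0 < e)
    (hee : e ≤ e') (he' : e' ≤ s0 / 2) :
    ‖f (z + e' * Complex.I) - f (z + e * Complex.I)‖ ≤ 2 * K * Real.sqrt e' := by
  have ho : IsOpen {z : ℂ | 0 < z.im} := isOpen_lt continuous_const Complex.continuous_im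
  have hfd : ∀ t : ℝ, 0 < t → HasDerivAt (fun t : ℝ => f (z + t * Complex.I) - f (z + e * Complex.I))
      (deriv f (z + t * Complex.I) * Complex.I) t := by
    intro t ht
    have h1 : HasDerivAt f (deriv f (z + t * Complex.I)) (z + t * Complex.I) :=
      (hd.differentiableAt (ho.mem_nhds (by
        show 0 < (z + t * Complex.I).im
        simp; linarith))).hasDerivAt
    have h2 : HasDerivAt (fun t : ℝ => z + (t : ℂ) * Complex.I) Complex.I t := by
      have := ((Complex.ofRealCLM.hasDerivAt (x := t)).mul_const Complex.I).const_add z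
      simpa using this
    exact (h1.comp t h2).sub_const _
  have hbd : ∀ t : ℝ, 0 < t → t ≤ e' → ‖deriv f (z + t * Complex.I) * Complex.I‖ ≤
      K / Real.sqrt t := by
    intro t ht ht'
    rw [norm_mul, Complex.norm_I, mul_one]
    have e1 : z + t * Complex.I = (z.re : ℂ) + ((z.im + t : ℝ) : ℂ) * Complex.I := by
      apply Complex.ext <;> simp
    rw [e1]
    refine (hb z.re (z.im + t) hz1 (by linarith) (by linarith)).trans ?_
    apply div_le_div_of_nonneg_left hK.le (Real.sqrt_pos.mpr ht)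
    exact Real.sqrt_le_sqrt (by linarith)
  have key := image_norm_le_of_norm_deriv_right_le_deriv_boundary'
    (f := fun t : ℝ => f (z + t * Complex.I) - f (z + e * Complex.I))
    (f' := fun t => deriv f (z + t * Complex.I) * Complex.I) (a := e) (b := e')
    (B := fun t => 2 * K * (Real.sqrt t - Real.sqrt e)) (B' := fun t => K / Real.sqrt t)
    (fun t ht => (hfd t (lt_of_lt_of_le he ht.1)).continuousAt.continuousWithinAt)
    (fun t ht => (hfd t (lt_of_lt_of_le he ht.1)).hasDerivWithinAt)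
    (by simp)
    (by fun_prop)
    (fun t ht => by
      have ht0 : 0 < t := lt_of_lt_of_le he ht.1
      have h1 := ((Real.hasDerivAt_sqrt ht0.ne').sub_const (Real.sqrt e)).const_mul (2 * K)
      have h2 : 2 * K * (1 / (2 * Real.sqrt t)) = K / Real.sqrt t := by
        have := (Real.sqrt_pos.mpr ht0).ne'
        field_simp
      rw [h2] at h1
      exact h1.hasDerivWithinAt)
    (fun t ht => hbd t (lt_of_lt_of_le he ht.1) ht.2.le)
    (x := e') ⟨hee, le_refl _⟩
  refine key.trans ?_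
  have : 0 ≤ Real.sqrt e := Real.sqrt_nonneg e
  nlinarith

end

end Pool.Agent.X185.BS
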