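import Pool.Agent.X185.BS.Step
set_option autoImplicit false
set_option linter.all false

open Metric Set Filter Topology

noncomputable section

namespace Pool.Agent.X185.BS

theorem sp_deriv (h : ℂ → ℂ) (hd : DifferentiableOn ℂ h (ball 0 1))
    (hm : ∀ z, ‖z‖ < 1 → ‖h z‖ < 1) : ‖deriv h 0‖ ≤ 1 - ‖h 0‖ ^ 2 := by
  obtain ⟨a, ha⟩ : ∃ a, a = h 0 := ⟨_, rfl⟩
  have ha1 : ‖a‖ < 1 := by rw [ha]; exact hm 0 (by simp)
  set g : ℂ → ℂ := fun u => (h u - a) / (1 - (starRingEnd ℂ) a * h u) with hg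
  have hgd : DifferentiableOn ℂ g (ball 0 1) := by
    apply DifferentiableOn.div
    · exact hd.sub_const _
    · exact (differentiableOn_const _).sub (hd.const_mul _)
    · intro u hu
      exact mob_ne _ _ (hm u (by simpa using hu)) ha1
  have hg0 : g 0 = 0 := by simp [hg, ha]
  have hgm : MapsTo g (ball 0 1) (closedBall (g 0) 1) := by
    intro u hu
    rw [hg0, mem_closedBall_zero_iff]
    exact (mob_lt _ _ (hm u (by simpa using hu)) ha1).le
  have h3 := Complex.norm_deriv_le_div_of_mapsTo_ball hgd hgm one_pos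
  have hX : 0 < 1 - ‖a‖ ^ 2 := by nlinarith [norm_nonneg a]
  have hG0 : deriv g 0 = deriv h 0 / ((1 - ‖a‖ ^ 2 : ℝ) : ℂ) := by
    have hh : HasDerivAt h (deriv h 0) 0 :=
      (hd.differentiableAt (isOpen_ball.mem_nhds (mem_ball_self one_pos))).hasDerivAt
    have h2 : HasDerivAt g (((deriv h 0) * (1 - (starRingEnd ℂ) a * h 0) -
        (h 0 - a) * (-((starRingEnd ℂ) a * deriv h 0))) / (1 - (starRingEnd ℂ) a * h 0) ^ 2) 0 := by
      apply HasDerivAt.div (hh.sub_const a)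
      · exact (hh.const_mul _).const_sub _
      · exact mob_ne _ _ (hm 0 (by simp)) ha1
    rw [h2.deriv, ← ha]
    have e : (starRingEnd ℂ) a * a = ((‖a‖ ^ 2 : ℝ) : ℂ) := by
      rw [mul_comm, Complex.mul_conj, Complex.normSq_eq_norm_sq]
    rw [e]
    have hX' : ((1 - ‖a‖ ^ 2 : ℝ) : ℂ) ≠ 0 := by exact_mod_cast hX.ne'
    push_cast at hX' ⊢
    field_simp
    ring
  rw [hG0, norm_div, Complex.norm_real, Real.norm_eq_abs, abs_of_pos hX, div_le_iff₀ hX,
    div_one, one_mul] at h3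
  rwa [ha] at h3

/-- the disc coordinate centred at `x + i y` -/
def psi (x y : ℝ) (w : ℂ) : ℂ := (x : ℂ) + Complex.I * y * ((1 + w) / (1 - w))

theorem psi_im (x y : ℝ) (hy : 0 < y) (w : ℂ) (hw : ‖w‖ < 1) : 0 < (psi x y w).im := by
  have h1 : (1 : ℂ) - w ≠ 0 := by
    intro h
    have : w = 1 := (sub_eq_zero.mp h).symm
    rw [this] at hw
    simp at hw
  have h2 : 0 < Complex.normSq (1 - w) := Complex.normSq_pos.mpr h1
  have h3 : (psi x y w).im = y * ((1 - Complex.normSq w) / Complex.normSq (1 - w)) := by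
    rw [psi]
    simp only [Complex.add_im, Complex.ofReal_im, Complex.mul_im, Complex.mul_re, Complex.I_re,
      Complex.I_im, Complex.ofReal_re, Complex.div_re, Complex.add_re, Complex.one_re,
      Complex.sub_re, Complex.one_im, Complex.sub_im]
    rw [← add_div, Complex.normSq_apply w]
    ring
  rw [h3]
  have h4 : Complex.normSq w < 1 := by
    rw [Complex.normSq_eq_norm_sq]; nlinarith [norm_nonneg w]
  have h5 : 0 < 1 - Complex.normSq w := by linarith
  positivity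

theorem psi_hd (x y : ℝ) (w : ℂ) (hw : ‖w‖ < 1) :
    HasDerivAt (psi x y) (Complex.I * y * (2 / (1 - w) ^ 2)) w := by
  have h1 : (1 : ℂ) - w ≠ 0 := by
    intro h
    have : w = 1 := (sub_eq_zero.mp h).symm
    rw [this] at hw
    simp at hw
  have h2 : HasDerivAt (fun w : ℂ => (1 + w) / (1 - w)) (2 / (1 - w) ^ 2) w := by
    have := ((hasDerivAt_id w).const_add 1).div ((hasDerivAt_id w).const_sub 1) h1
    have e : (1 * ((1 : ℂ) - w) - (1 + w) * (-1)) = 2 := by ring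
    rw [← e]
    exact this
  have h3 := (h2.const_mul (Complex.I * y)).const_add (x : ℂ)
  exact h3

section
variable (f : ℂ → ℂ) (hd : DifferentiableOn ℂ f {z | 0 < z.im})
  (hm : ∀ z : ℂ, 0 < z.im → ‖f z‖ < 1)
include hd hm

theorem hp_comp (x y : ℝ) (hy : 0 < y) :
    DifferentiableOn ℂ (fun w => f (psi x y w)) (ball 0 1) ∧
    (∀ z, ‖z‖ < 1 → ‖f (psi x y z)‖ < 1) ∧
    f (psi x y 0) = f (x + y * Complex.I) ∧
    ‖deriv (fun w => f (psi x y w)) 0‖ = 2 * y * ‖deriv f (x + y * Complex.I)‖ := by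
  have ho : IsOpen {z : ℂ | 0 < z.im} := isOpen_lt continuous_const Complex.continuous_im
  have e0 : psi x y 0 = x + y * Complex.I := by simp [psi]; ring
  refine ⟨?_, ?_, by rw [e0], ?_⟩
  · intro w hw
    have hw' : ‖w‖ < 1 := by simpa using hw
    have h1 : DifferentiableAt ℂ f (psi x y w) :=
      hd.differentiableAt (ho.mem_nhds (psi_im x y hy w hw'))
    exact (h1.comp w (psi_hd x y w hw').differentiableAt).differentiableWithinAt
  · intro z hz
    exact hm _ (psi_im x y hy z hz)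
  · have h1 : HasDerivAt f (deriv f (psi x y 0)) (psi x y 0) :=
      (hd.differentiableAt (ho.mem_nhds (psi_im x y hy 0 (by simp)))).hasDerivAt
    have h2 := h1.comp (0 : ℂ) (psi_hd x y 0 (by simp))
    have h3 : deriv (fun w => f (psi x y w)) 0 = _ := h2.deriv
    rw [h3, e0]
    simp only [sub_zero, one_pow, div_one, norm_mul, Complex.norm_I, one_mul, Complex.norm_real,
      Real.norm_eq_abs, abs_of_pos hy, Complex.norm_ofNat]
    ring

theorem hp_sp (x y : ℝ) (hy : 0 < y) :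
    2 * y * ‖deriv f (x + y * Complex.I)‖ ≤ 1 - ‖f (x + y * Complex.I)‖ ^ 2 := by
  obtain ⟨h1, h2, h3, h4⟩ := hp_comp f hd hm x y hy
  have := sp_deriv _ h1 h2
  rwa [h3, h4] at this

theorem hp_step (x y : ℝ) (hy : 0 < y)
    (h : (1 - 1 / 100000) * (1 - ‖f (x + y * Complex.I)‖ ^ 2) ≤
      2 * y * ‖deriv f (x + y * Complex.I)‖) :
    3 * Y (f (x + y * Complex.I)) ≤
      Y (f (x + (3 * y : ℝ) * Complex.I)) + Y (f (x + (y / 3 : ℝ) * Complex.I)) := by
  obtain ⟨h1, h2, h3, h4⟩ := hp_comp f hd hm x y hy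
  have key := disc_step _ h1 h2 (by rw [h3, h4]; exact h)
  have e1 : psi x y (1 / 2) = x + (3 * y : ℝ) * Complex.I := by
    rw [psi]; push_cast; norm_num; ring
  have e2 : psi x y (-1 / 2) = x + (y / 3 : ℝ) * Complex.I := by
    rw [psi]; push_cast; norm_num; ring
  simp only [h3, e1, e2] at key
  exact key

end

theorem growth (y : ℝ → ℝ) (s0 M : ℝ) (hs0 : 0 < s0) (h1 : ∀ s, 0 < s → 1 ≤ y s)
    (hM : ∀ s, s0 < s → s ≤ 3 * s0 → y s ≤ M)
    (hstep : ∀ s, 0 < s → s ≤ s0 → 3 * y s ≤ y (3 * s) + y (s / 3)) (s : ℝ) (hs : 0 < s)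
    (hs1 : s ≤ s0) : s0 ≤ s * (y s) ^ 2 * 4 ^ (⌈M⌉₊ + 1) := by
  obtain ⟨n, hn1, hn2⟩ := exists_nat_pow_near (x := s0 / s) (y := 3)
    (by rw [le_div_iff₀ hs]; linarith) (by norm_num)
  rw [le_div_iff₀ hs] at hn1
  rw [div_lt_iff₀ hs] at hn2
  obtain ⟨T, hT⟩ : ∃ T, T = 3 ^ (n + 1) * s := ⟨_, rfl⟩
  have hT0 : 0 < T := by rw [hT]; positivity
  have hT1 : s0 < T := by rw [hT]; exact hn2
  have hT3 : T ≤ 3 * s0 := by rw [hT, pow_succ]; linarith
  obtain ⟨a, ha⟩ : ∃ a : ℕ → ℝ, a = fun k => y (T / 3 ^ k) := ⟨_, rfl⟩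
  have ha1 : ∀ k, 1 ≤ a k := by
    intro k; rw [ha]; exact h1 _ (by positivity)
  have ha0 : a 0 ≤ M := by
    rw [ha]; simp only [pow_zero, div_one]; exact hM T hT1 hT3
  have has : ∀ k, 3 * a (k + 1) ≤ a k + a (k + 2) := by
    intro k
    have e := hstep (T / 3 ^ (k + 1)) (by positivity) (by
      rw [div_le_iff₀ (by positivity), pow_succ]
      have : (1 : ℝ) ≤ 3 ^ k := one_le_pow₀ (by norm_num)
      nlinarith)
    have e1 : 3 * (T / 3 ^ (k + 1)) = T / 3 ^ k := by rw [pow_succ]; field_simp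
    have e2 : T / 3 ^ (k + 1) / 3 = T / 3 ^ (k + 2) := by
      rw [pow_succ 3 (k + 1)]; field_simp
    rw [e1, e2] at e
    rw [ha]; exact e
  have hD : ∀ k : ℕ, (k : ℝ) - M ≤ a (k + 1) - a k := by
    intro k
    induction k with
    | zero => have := ha1 1; push_cast; linarith
    | succ k ih =>
      have h2 := has k
      have h3 := ha1 (k + 1)
      push_cast
      linarith
  obtain ⟨N, hN⟩ : ∃ N, N = ⌈M⌉₊ := ⟨_, rfl⟩
  have hNM : M ≤ N := by rw [hN]; exact Nat.le_ceil M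
  have hpow : ∀ k, N + 1 ≤ k → (2 : ℝ) ^ k ≤ a k * 2 ^ (N + 1) := by
    intro k hk
    induction k, hk using Nat.le_induction with
    | base =>
      have := ha1 (N + 1)
      have h3 : (0 : ℝ) < 2 ^ (N + 1) := by positivity
      nlinarith
    | succ k hk ih =>
      obtain ⟨j, rfl⟩ : ∃ j, k = j + 1 := ⟨k - 1, by omega⟩
      have h2 := has j
      have h3 := hD j
      have h4 : (N : ℝ) ≤ j := by exact_mod_cast (by omega : N ≤ j)
      have h5 : 2 * a (j + 1) ≤ a (j + 1 + 1) := by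
        have e : a (j + 2) = a (j + 1 + 1) := rfl
        linarith
      have h6 : (0 : ℝ) < 2 ^ (N + 1) := by positivity
      calc (2 : ℝ) ^ (j + 1 + 1) = 2 * 2 ^ (j + 1) := by rw [pow_succ]; ring
        _ ≤ 2 * (a (j + 1) * 2 ^ (N + 1)) := by linarith
        _ = (2 * a (j + 1)) * 2 ^ (N + 1) := by ring
        _ ≤ a (j + 1 + 1) * 2 ^ (N + 1) := by apply mul_le_mul_of_nonneg_right h5 h6.le
  have hpow2 : ∀ k, (2 : ℝ) ^ k ≤ a k * 2 ^ (N + 1) := by
    intro k
    rcases le_total (N + 1) k with h | h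
    · exact hpow k h
    · have h2 : (2 : ℝ) ^ k ≤ 2 ^ (N + 1) := pow_le_pow_right₀ (by norm_num) h
      have h3 := ha1 k
      have h6 : (0 : ℝ) < 2 ^ (N + 1) := by positivity
      nlinarith
  have hy : a (n + 1) = y s := by
    rw [ha]; simp only; congr 1; rw [hT]; field_simp
  have h7 := hpow2 (n + 1)
  rw [hy] at h7
  have h8 := pow_le_pow_left₀ (by positivity) h7 2
  have e4 : ∀ m : ℕ, ((2 : ℝ) ^ m) ^ 2 = 4 ^ m := by
    intro m; rw [← pow_mul, mul_comm, pow_mul]; norm_num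
  rw [mul_pow, e4, e4] at h8
  have h9 : (3 : ℝ) ^ (n + 1) ≤ 4 ^ (n + 1) := pow_le_pow_left₀ (by norm_num) (by norm_num) _
  rw [← hN]
  calc s0 ≤ 3 ^ (n + 1) * s := hn2.le
    _ ≤ 4 ^ (n + 1) * s := mul_le_mul_of_nonneg_right h9 hs.le
    _ ≤ (y s ^ 2 * 4 ^ (N + 1)) * s := mul_le_mul_of_nonneg_right h8 hs.le
    _ = s * y s ^ 2 * 4 ^ (N + 1) := by ring

end Pool.Agent.X185.BS
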