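import Pool.Agent.X185.BS.Pois
import Pool.Agent.X185.BS.Base
set_option autoImplicit false
set_option linter.all false

open Metric Set Filter Topology MeasureTheory

noncomputable section

namespace Pool.Agent.X185.BS

theorem inner_le_one (f : ℂ → ℂ) (hf : IsInner f) (w : ℂ) (hw : ‖w‖ < 1) : ‖f w‖ ≤ 1 := by
  obtain ⟨hd, ⟨M, hM⟩, hr⟩ := hf
  by_cases h0 : f w = 0
  · rw [h0]; simp
  have hn : 0 < ‖f w‖ := norm_pos_iff.mpr h0
  obtain ⟨c, hc⟩ : ∃ c : ℂ, c = (starRingEnd ℂ) (f w) / ‖f w‖ := ⟨_, rfl⟩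
  have hc1 : ‖c‖ = 1 := by
    rw [hc, norm_div, RCLike.norm_conj, Complex.norm_real, norm_norm, div_self hn.ne']
  have hcf : (c * f w).re = ‖f w‖ := by
    have : c * f w = (‖f w‖ : ℂ) := by
      rw [hc, div_mul_eq_mul_div, mul_comm, Complex.mul_conj, Complex.normSq_eq_norm_sq]
      have : (‖f w‖ : ℂ) ≠ 0 := by exact_mod_cast hn.ne'
      push_cast
      field_simp
    rw [this, Complex.ofReal_re]
  have key := poisson_le (fun z => (c * f z).re)
    (Complex.continuous_re.comp_continuousOn (continuousOn_const.mul hd.continuousOn)) M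
    (by
      intro z hz
      refine (Complex.abs_re_le_norm _).trans ?_
      rw [norm_mul, hc1, one_mul]
      exact hM z hz) w hw
    (by
      intro R hR hR1
      have hh : InnerProductSpace.HarmonicOnNhd (fun z => (c * f z).re) (closedBall 0 R) := by
        intro x hx
        have hx' : x ∈ ball (0 : ℂ) 1 := by
          rw [mem_closedBall_zero_iff] at hx
          rw [mem_ball_zero_iff]; linarith
        have ha : AnalyticAt ℂ (fun z => c * f z) x :=
          (hd.const_mul c).analyticAt (isOpen_ball.mem_nhds hx')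
        exact ha.harmonicAt_re
      exact hh.circleAverage_poissonKernel_smul (by simpa using hR))
    (fun _ => 1) intervalIntegrable_const
    (by
      filter_upwards [hr] with t ht
      obtain ⟨η, hη, hl⟩ := ht
      refine ⟨(c * η).re, ?_, ?_⟩
      · exact (Complex.continuous_re.tendsto _).comp (hl.const_mul c)
      · refine (Complex.re_le_norm _).trans ?_
        rw [norm_mul, hc1, hη, one_mul])
  rw [poissonInt_one w hw] at key
  rwa [hcf] at key

theorem inner_lt_one (f : ℂ → ℂ) (hf : IsInner f) (hnc : ¬ ∃ c, ∀ z ∈ ball (0 : ℂ) 1, f z = c)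
    (w : ℂ) (hw : ‖w‖ < 1) : ‖f w‖ < 1 := by
  by_contra hcon
  push Not at hcon
  apply hnc
  refine ⟨f w, ?_⟩
  have := Complex.eqOn_of_isPreconnected_of_isMaxOn_norm (f := f) (U := ball 0 1) (c := w)
    (convex_ball _ _).isPreconnected isOpen_ball hf.1 (by simpa using hw)
    (by
      intro z hz
      show ‖f z‖ ≤ ‖f w‖
      exact (inner_le_one f hf z (by simpa using hz)).trans hcon)
  intro z hz
  exact this hz

/-- along a radius on which the derivative has a finite limit modulus -/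
theorem radial_lim (θ : ℂ → ℂ) (hd : DifferentiableOn ℂ θ (ball 0 1)) (t φ : ℝ)
    (h1 : Tendsto (fun r : ℝ => ‖deriv θ (r * Complex.exp (t * Complex.I))‖) (𝓝[<] 1) (𝓝 φ))
    (h2 : Tendsto (fun r : ℝ => ‖θ (r * Complex.exp (t * Complex.I))‖) (𝓝[<] 1) (𝓝 1))
    (φ' : ℝ) (hφ : φ < φ') :
    ∀ᶠ r : ℝ in 𝓝[<] 1, 1 - ‖θ (r * Complex.exp (t * Complex.I))‖ ≤ φ' * (1 - r) := by
  have h3 : ∀ᶠ r : ℝ in 𝓝[<] 1, ‖deriv θ (r * Complex.exp (t * Complex.I))‖ < φ' :=
    h1.eventually (gt_mem_nhds hφ)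
  obtain ⟨r0, hr0, hr0'⟩ : ∃ r0 : ℝ, r0 < 1 ∧ ∀ r, r0 < r → r < 1 →
      ‖deriv θ (r * Complex.exp (t * Complex.I))‖ < φ' := by
    obtain ⟨r0, hr0, h⟩ := (mem_nhdsLT_iff_exists_Ioo_subset).mp h3
    exact ⟨r0, hr0, fun r ha hb => h ⟨ha, hb⟩⟩
  have hnb : Ioo (max r0 0) 1 ∈ 𝓝[<] (1 : ℝ) := Ioo_mem_nhdsLT (max_lt hr0 one_pos)
  filter_upwards [hnb] with r hr
  have hr1 : r0 < r := lt_of_le_of_lt (le_max_left _ _) hr.1
  have hr2 : 0 < r := lt_of_le_of_lt (le_max_right _ _) hr.1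
  have hφ' : 0 ≤ φ' := (norm_nonneg _).trans (hr0' r hr1 hr.2).le
  -- the estimate between `r` and `s`
  have hest : ∀ s : ℝ, r ≤ s → s < 1 →
      ‖θ (s * Complex.exp (t * Complex.I)) - θ (r * Complex.exp (t * Complex.I))‖ ≤
        φ' * (s - r) := by
    intro s hs hs1
    apply norm_image_sub_le_of_norm_deriv_le_segment'
      (f := fun s : ℝ => θ (s * Complex.exp (t * Complex.I)))
      (f' := fun s : ℝ => deriv θ (s * Complex.exp (t * Complex.I)) *
        Complex.exp (t * Complex.I)) (a := r) (b := s) (C := φ') _ _ s ⟨hs, le_refl _⟩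
    · intro x hx
      have hxm : (x : ℂ) * Complex.exp (t * Complex.I) ∈ ball (0 : ℂ) 1 := by
        rw [mem_ball_zero_iff, norm_e x t (by linarith [hx.1])]
        linarith [hx.2]
      have hA : HasDerivAt θ (deriv θ (x * Complex.exp (t * Complex.I)))
          (x * Complex.exp (t * Complex.I)) :=
        (hd.differentiableAt (isOpen_ball.mem_nhds hxm)).hasDerivAt
      have hB : HasDerivAt (fun s : ℝ => (s : ℂ) * Complex.exp (t * Complex.I))
          (Complex.exp (t * Complex.I)) x := by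
        have := (Complex.ofRealCLM.hasDerivAt (x := x)).mul_const (Complex.exp (t * Complex.I))
        simpa using this
      exact (hA.comp x hB).hasDerivWithinAt
    · intro x hx
      rw [norm_mul, Complex.norm_exp_ofReal_mul_I, mul_one]
      exact (hr0' x (by linarith [hx.1]) (by linarith [hx.2])).le
  have hlim : Tendsto (fun s : ℝ => ‖θ (s * Complex.exp (t * Complex.I))‖ -
      ‖θ (r * Complex.exp (t * Complex.I))‖) (𝓝[<] 1)
      (𝓝 (1 - ‖θ (r * Complex.exp (t * Complex.I))‖)) := h2.sub_const _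
  apply le_of_tendsto hlim
  have hnb2 : Ioo r 1 ∈ 𝓝[<] (1 : ℝ) := Ioo_mem_nhdsLT hr.2
  filter_upwards [hnb2] with s hs
  calc ‖θ (s * Complex.exp (t * Complex.I))‖ - ‖θ (r * Complex.exp (t * Complex.I))‖
      ≤ ‖θ (s * Complex.exp (t * Complex.I)) - θ (r * Complex.exp (t * Complex.I))‖ :=
        norm_sub_norm_le _ _
    _ ≤ φ' * (s - r) := hest s hs.1.le hs.2
    _ ≤ φ' * (1 - r) := by apply mul_le_mul_of_nonneg_left _ hφ'; linarith [hs.2]

theorem main_ineq (θ : ℂ → ℂ) (hθ : IsInner θ)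
    (hnc : ¬ ∃ c, ∀ z ∈ ball (0 : ℂ) 1, θ z = c) (φ : ℝ → ℝ)
    (hlog : IntervalIntegrable (fun t => Real.log (φ t)) volume 0 (2 * Real.pi))
    (hφ : ∀ᵐ t : ℝ, Tendsto (fun r : ℝ => ‖deriv θ (r * Complex.exp (t * Complex.I))‖) (𝓝[<] 1)
      (𝓝 (φ t))) (w : ℂ) (hw : ‖w‖ < 1) :
    1 - ‖θ w‖ ^ 2 ≤ Real.exp (poissonInt (fun t => Real.log (φ t)) w) * (1 - ‖w‖ ^ 2) := by
  have hlt := inner_lt_one θ hθ hnc
  obtain ⟨hd, -, hr⟩ := hθ
  obtain ⟨a, ha⟩ : ∃ a, a = θ w := ⟨_, rfl⟩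
  have ha1 : ‖a‖ < 1 := by rw [ha]; exact hlt w hw
  have hX : 0 < 1 - ‖a‖ ^ 2 := by nlinarith [norm_nonneg a]
  have hW : 0 < 1 - ‖w‖ ^ 2 := by nlinarith [norm_nonneg w]
  obtain ⟨κ, hκ⟩ : ∃ κ : ℝ, κ = (1 - ‖w‖ ^ 2) / (1 - ‖a‖ ^ 2) := ⟨_, rfl⟩
  have hκ0 : 0 < κ := by rw [hκ]; positivity
  set G : ℂ → ℂ := fun z => (κ : ℂ) *
    ((1 - (starRingEnd ℂ) a * θ z) / (1 - (starRingEnd ℂ) w * z)) ^ 2 with hG
  -- lower and upper bounds for the two factors, for closed disc values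
  have hlo : ∀ b c : ℂ, ‖b‖ < 1 → ‖c‖ ≤ 1 → 1 - ‖b‖ ≤ ‖1 - (starRingEnd ℂ) b * c‖ := by
    intro b c hb hc
    have h1 := norm_sub_norm_le (1 : ℂ) ((starRingEnd ℂ) b * c)
    rw [norm_one, norm_mul, RCLike.norm_conj] at h1
    have : ‖b‖ * ‖c‖ ≤ ‖b‖ := mul_le_of_le_one_right (norm_nonneg _) hc
    linarith
  have hup : ∀ b c : ℂ, ‖b‖ < 1 → ‖c‖ ≤ 1 → ‖1 - (starRingEnd ℂ) b * c‖ ≤ 2 := by
    intro b c hb hc
    have h1 := norm_sub_le (1 : ℂ) ((starRingEnd ℂ) b * c)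
    rw [norm_one, norm_mul, RCLike.norm_conj] at h1
    have : ‖b‖ * ‖c‖ ≤ ‖b‖ := mul_le_of_le_one_right (norm_nonneg _) hc
    linarith
  have hGn : ∀ z, ‖G z‖ = κ * (‖1 - (starRingEnd ℂ) a * θ z‖ / ‖1 - (starRingEnd ℂ) w * z‖) ^ 2 := by
    intro z
    rw [hG]
    simp only [norm_mul, norm_pow, norm_div, Complex.norm_real, Real.norm_eq_abs, abs_of_pos hκ0]
  obtain ⟨m, hm⟩ : ∃ m : ℝ, m = κ * ((1 - ‖a‖) / 2) ^ 2 := ⟨_, rfl⟩
  obtain ⟨M', hM'⟩ : ∃ M' : ℝ, M' = κ * (2 / (1 - ‖w‖)) ^ 2 := ⟨_, rfl⟩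
  have ha2 : 0 < 1 - ‖a‖ := by linarith
  have hw2 : 0 < 1 - ‖w‖ := by linarith
  have hm0 : 0 < m := by rw [hm]; positivity
  have hGlo : ∀ z, ‖z‖ < 1 → m ≤ ‖G z‖ := by
    intro z hz
    rw [hGn, hm]
    have h1 := hlo a (θ z) ha1 (hlt z hz).le
    have h2 := hup w z hw hz.le
    have h3 := hlo w z hw hz.le
    apply mul_le_mul_of_nonneg_left _ hκ0.le
    apply pow_le_pow_left₀ (by positivity)
    exact div_le_div₀ (norm_nonneg _) h1 (by linarith) h2
  have hGup : ∀ z, ‖z‖ < 1 → ‖G z‖ ≤ M' := by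
    intro z hz
    rw [hGn, hM']
    have h1 := hup a (θ z) ha1 (hlt z hz).le
    have h3 := hlo w z hw hz.le
    apply mul_le_mul_of_nonneg_left _ hκ0.le
    apply pow_le_pow_left₀ (by positivity)
    exact div_le_div₀ (by norm_num) h1 (by linarith) h3
  have hGsp : ∀ z, ‖z‖ < 1 → ‖G z‖ * (1 - ‖z‖ ^ 2) ≤ 1 - ‖θ z‖ ^ 2 := by
    intro z hz
    have h1 := schwarz_pick θ hd (fun z hz => hlt z hz) z w hz hw
    rw [← ha] at h1
    have h3 : 0 < ‖1 - (starRingEnd ℂ) w * z‖ := by have := hlo w z hw hz.le; linarith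
    rw [hGn, hκ]
    have e : (1 - ‖w‖ ^ 2) / (1 - ‖a‖ ^ 2) *
        (‖1 - (starRingEnd ℂ) a * θ z‖ / ‖1 - (starRingEnd ℂ) w * z‖) ^ 2 * (1 - ‖z‖ ^ 2) =
        (‖1 - (starRingEnd ℂ) a * θ z‖ ^ 2 * ((1 - ‖z‖ ^ 2) * (1 - ‖w‖ ^ 2))) /
          (‖1 - (starRingEnd ℂ) w * z‖ ^ 2 * (1 - ‖a‖ ^ 2)) := by
      field_simp
    rw [e, div_le_iff₀ (by positivity)]
    linarith
  have hden : ∀ z, ‖z‖ ≤ 1 → 1 - (starRingEnd ℂ) w * z ≠ 0 := by
    intro z hz h
    have := hlo w z hw hz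
    rw [h, norm_zero] at this
    linarith
  have hGd : DifferentiableOn ℂ G (ball 0 1) := by
    rw [hG]
    apply DifferentiableOn.const_mul
    apply DifferentiableOn.pow
    apply DifferentiableOn.div
    · exact (differentiableOn_const _).sub (hd.const_mul _)
    · fun_prop
    · intro z hz
      exact hden z (by simpa using (mem_ball_zero_iff.mp hz).le)
  have hGne : ∀ z, ‖z‖ < 1 → G z ≠ 0 := by
    intro z hz h
    have := hGlo z hz
    rw [h, norm_zero] at this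
    linarith
  have key := poisson_le (fun z => Real.log ‖G z‖)
    (by
      apply ContinuousOn.log hGd.continuousOn.norm
      intro z hz
      exact norm_ne_zero_iff.mpr (hGne z (by simpa using hz)))
    (|Real.log m| + |Real.log M'|)
    (by
      intro z hz
      have hz' : ‖z‖ < 1 := by simpa using hz
      have h1 := Real.log_le_log hm0 (hGlo z hz')
      have h2 := Real.log_le_log (lt_of_lt_of_le hm0 (hGlo z hz')) (hGup z hz')
      rw [abs_le]
      constructor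
      · have := neg_abs_le (Real.log m)
        have := abs_nonneg (Real.log M')
        linarith
      · have := le_abs_self (Real.log M')
        have := abs_nonneg (Real.log m)
        linarith) w hw
    (by
      intro R hR hR1
      have hh : InnerProductSpace.HarmonicOnNhd (fun z => Real.log ‖G z‖) (closedBall 0 R) := by
        intro x hx
        have hx' : x ∈ ball (0 : ℂ) 1 := by
          rw [mem_closedBall_zero_iff] at hx
          rw [mem_ball_zero_iff]; linarith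
        exact (hGd.analyticAt (isOpen_ball.mem_nhds hx')).harmonicAt_log_norm
          (hGne x (by simpa using hx'))
      exact hh.circleAverage_poissonKernel_smul (by simpa using hR))
    (fun t => Real.log (φ t)) hlog
    (by
      filter_upwards [hr, hφ] with t ht hφt
      obtain ⟨η, hη, hl⟩ := ht
      have hnb : Ioo (0 : ℝ) 1 ∈ 𝓝[<] (1 : ℝ) := Ioo_mem_nhdsLT one_pos
      have hz : Tendsto (fun r : ℝ => (r : ℂ) * Complex.exp (t * Complex.I)) (𝓝[<] 1)
          (𝓝 (Complex.exp (t * Complex.I))) := by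
        have : ContinuousAt (fun r : ℝ => (r : ℂ) * Complex.exp (t * Complex.I)) 1 := by fun_prop
        have h2 := this.tendsto.mono_left (nhdsWithin_le_nhds (s := Iio 1))
        simpa using h2
      have hne := hden (Complex.exp (t * Complex.I)) (by rw [Complex.norm_exp_ofReal_mul_I])
      have hGt : Tendsto (fun r : ℝ => G (r * Complex.exp (t * Complex.I))) (𝓝[<] 1)
          (𝓝 ((κ : ℂ) * ((1 - (starRingEnd ℂ) a * η) /
            (1 - (starRingEnd ℂ) w * Complex.exp (t * Complex.I))) ^ 2)) := by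
        rw [hG]
        exact ((((hl.const_mul _).const_sub 1).div ((hz.const_mul _).const_sub 1) hne).pow 2).const_mul _
      obtain ⟨g, hg⟩ : ∃ g, g = ((κ : ℂ) * ((1 - (starRingEnd ℂ) a * η) /
            (1 - (starRingEnd ℂ) w * Complex.exp (t * Complex.I))) ^ 2) := ⟨_, rfl⟩
      rw [← hg] at hGt
      have hgm : m ≤ ‖g‖ := by
        apply ge_of_tendsto hGt.norm
        filter_upwards [hnb] with r hr'
        exact hGlo _ (by rw [norm_e r t hr'.1.le]; exact hr'.2)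
      have hg0 : ‖g‖ ≠ 0 := by linarith
      have hgφ : ‖g‖ ≤ φ t := by
        apply le_of_forall_gt_imp_ge_of_dense
        intro φ' hφ'
        have h5 := radial_lim θ hd t (φ t) hφt (by simpa [hη] using hl.norm) φ' hφ'
        have h6 : Tendsto (fun r : ℝ => 2 * φ' / (1 + r)) (𝓝[<] 1) (𝓝 φ') := by
          have : ContinuousAt (fun r : ℝ => 2 * φ' / (1 + r)) 1 := by
            apply ContinuousAt.div (by fun_prop) (by fun_prop) (by norm_num)
          have h2 := this.tendsto.mono_left (nhdsWithin_le_nhds (s := Iio 1))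
          have e : 2 * φ' / (1 + 1) = φ' := by ring
          rwa [e] at h2
        apply le_of_tendsto_of_tendsto hGt.norm h6
        filter_upwards [h5, hnb] with r h7 hr'
        have hnr := norm_e r t hr'.1.le
        have h8 := hGsp (r * Complex.exp (t * Complex.I)) (by rw [hnr]; exact hr'.2)
        rw [hnr] at h8
        have h9 := hlt (r * Complex.exp (t * Complex.I)) (by rw [hnr]; exact hr'.2)
        rw [le_div_iff₀ (by linarith [hr'.1])]
        have h10 : 0 < 1 - r := by linarith [hr'.2]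
        have h11 : ‖G (r * Complex.exp (t * Complex.I))‖ * (1 + r) * (1 - r) ≤
            2 * φ' * (1 - r) := by
          calc ‖G (r * Complex.exp (t * Complex.I))‖ * (1 + r) * (1 - r) =
              ‖G (r * Complex.exp (t * Complex.I))‖ * (1 - r ^ 2) := by ring
            _ ≤ 1 - ‖θ (r * Complex.exp (t * Complex.I))‖ ^ 2 := h8
            _ = (1 - ‖θ (r * Complex.exp (t * Complex.I))‖) *
                (1 + ‖θ (r * Complex.exp (t * Complex.I))‖) := by ring
            _ ≤ (1 - ‖θ (r * Complex.exp (t * Complex.I))‖) * 2 := by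
                apply mul_le_mul_of_nonneg_left <;> linarith
            _ ≤ (φ' * (1 - r)) * 2 := by linarith
            _ = 2 * φ' * (1 - r) := by ring
        exact le_of_mul_le_mul_right h11 h10
      refine ⟨Real.log ‖g‖, hGt.norm.log hg0, ?_⟩
      exact Real.log_le_log (by linarith) hgφ)
  have hGw : ‖G w‖ = (1 - ‖a‖ ^ 2) / (1 - ‖w‖ ^ 2) := by
    rw [hGn, ← ha, hκ]
    have e1 : ∀ b : ℂ, ‖b‖ < 1 → ‖1 - (starRingEnd ℂ) b * b‖ = 1 - ‖b‖ ^ 2 := by
      intro b hb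
      have : (1 : ℂ) - (starRingEnd ℂ) b * b = ((1 - ‖b‖ ^ 2 : ℝ) : ℂ) := by
        rw [mul_comm, Complex.mul_conj, Complex.normSq_eq_norm_sq]; push_cast; ring
      rw [this, Complex.norm_real, Real.norm_eq_abs, abs_of_pos]
      nlinarith [norm_nonneg b]
    rw [e1 a ha1, e1 w hw]
    field_simp
  have hpos : 0 < (1 - ‖a‖ ^ 2) / (1 - ‖w‖ ^ 2) := by positivity
  have key2 : Real.log ((1 - ‖a‖ ^ 2) / (1 - ‖w‖ ^ 2)) ≤
      poissonInt (fun t => Real.log (φ t)) w := by rw [← hGw]; exact key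
  rw [Real.log_le_iff_le_exp hpos, div_le_iff₀ hW] at key2
  rw [← ha]
  exact key2

theorem tau_ineq (θ : ℂ → ℂ) (hθ : IsInner θ)
    (hnc : ¬ ∃ c, ∀ z ∈ ball (0 : ℂ) 1, θ z = c) (I S O : ℂ → ℂ) (φ : ℝ → ℝ)
    (hF : IsFactorization (deriv θ) I S O φ) (w : ℂ) (hw : ‖w‖ < 1) :
    ‖I w‖ * (1 - ‖θ w‖ ^ 2) ≤ ‖deriv θ w‖ * (1 - ‖w‖ ^ 2) := by
  have hwb : w ∈ ball (0 : ℂ) 1 := by simpa using hw
  have h1 := main_ineq θ hθ hnc φ hF.log_int hF.bdry w hw
  rw [← hF.O_eq w hwb] at h1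
  have hW : 0 ≤ 1 - ‖w‖ ^ 2 := by nlinarith [norm_nonneg w]
  have h2 : ‖S w‖ * ‖deriv θ w‖ = ‖I w‖ * ‖O w‖ := by
    rw [← norm_mul, ← norm_mul, hF.eq w hwb]
  have h3 := inner_le_one S hF.inner_S w hw
  calc ‖I w‖ * (1 - ‖θ w‖ ^ 2) ≤ ‖I w‖ * (‖O w‖ * (1 - ‖w‖ ^ 2)) :=
        mul_le_mul_of_nonneg_left h1 (norm_nonneg _)
    _ = (‖S w‖ * ‖deriv θ w‖) * (1 - ‖w‖ ^ 2) := by rw [h2]; ring
    _ ≤ (1 * ‖deriv θ w‖) * (1 - ‖w‖ ^ 2) := by
        apply mul_le_mul_of_nonneg_right _ hW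
        exact mul_le_mul_of_nonneg_right h3 (norm_nonneg _)
    _ = ‖deriv θ w‖ * (1 - ‖w‖ ^ 2) := by rw [one_mul]

end Pool.Agent.X185.BS
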