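import Pool.Agent.X185.BS.Defs
set_option autoImplicit false
set_option linter.all false

open Metric Set Filter Topology MeasureTheory

noncomputable section

namespace Pool.Agent.X185.BS

/-- Poisson kernel -/
def Kn (w : ℂ) (R t : ℝ) : ℝ := (R ^ 2 - ‖w‖ ^ 2) / ‖(R : ℂ) * Complex.exp (t * Complex.I) - w‖ ^ 2

theorem norm_e (R t : ℝ) (hR : 0 ≤ R) : ‖(R : ℂ) * Complex.exp (t * Complex.I)‖ = R := by
  rw [norm_mul, Complex.norm_real, Real.norm_eq_abs, abs_of_nonneg hR, Complex.norm_exp_ofReal_mul_I,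
    mul_one]

theorem e_cont : Continuous (fun p : ℝ × ℝ => (p.1 : ℂ) * Complex.exp (p.2 * Complex.I)) := by
  fun_prop

theorem den_pos (w : ℂ) (R t : ℝ) (hR : ‖w‖ < R) :
    R - ‖w‖ ≤ ‖(R : ℂ) * Complex.exp (t * Complex.I) - w‖ := by
  have h0 : 0 ≤ R := (norm_nonneg w).trans hR.le
  have := norm_sub_norm_le ((R : ℂ) * Complex.exp (t * Complex.I)) w
  rwa [norm_e R t h0] at this

theorem Kn_cont_t (w : ℂ) (R : ℝ) (hR : ‖w‖ < R) : Continuous (Kn w R) := by
  unfold Kn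
  apply Continuous.div (by fun_prop) (by fun_prop)
  intro t
  have := den_pos w R t hR
  have h2 : 0 < ‖(R : ℂ) * Complex.exp (t * Complex.I) - w‖ := by linarith
  positivity

theorem Kn_nonneg (w : ℂ) (R t : ℝ) (hR : ‖w‖ < R) : 0 ≤ Kn w R t := by
  unfold Kn
  apply div_nonneg _ (by positivity)
  nlinarith [norm_nonneg w]

theorem Kn_tendsto (w : ℂ) (hw : ‖w‖ < 1) (t : ℝ) :
    Tendsto (fun R => Kn w R t) (𝓝[<] 1) (𝓝 (Kn w 1 t)) := by
  have : ContinuousAt (fun R : ℝ => Kn w R t) 1 := by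
    unfold Kn
    apply ContinuousAt.div (by fun_prop) (by fun_prop)
    have := den_pos w 1 t hw
    have h2 : 0 < ‖((1 : ℝ) : ℂ) * Complex.exp (t * Complex.I) - w‖ := by linarith
    positivity
  exact this.tendsto.mono_left nhdsWithin_le_nhds

theorem Kn_eq (w : ℂ) (R t : ℝ) (hR : 0 ≤ R) : poissonKernel 0 w (circleMap 0 R t) = Kn w R t := by
  rw [poissonKernel_def, Kn, circleMap_zero, sub_zero, sub_zero, norm_e R t hR]

theorem Kn_le (w : ℂ) (R t : ℝ) (hw : ‖w‖ < 1) (hR : (1 + ‖w‖) / 2 ≤ R) (hR1 : R ≤ 1) :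
    Kn w R t ≤ 4 / (1 - ‖w‖) ^ 2 := by
  have h0 : 0 < 1 - ‖w‖ := by linarith
  have h1 : ‖w‖ < R := by linarith
  have h2 := den_pos w R t h1
  have h3 : (1 - ‖w‖) / 2 ≤ ‖(R : ℂ) * Complex.exp (t * Complex.I) - w‖ := by linarith
  have h4 : ((1 - ‖w‖) / 2) ^ 2 ≤ ‖(R : ℂ) * Complex.exp (t * Complex.I) - w‖ ^ 2 :=
    pow_le_pow_left₀ (by positivity) h3 2
  unfold Kn
  have h5 : R ^ 2 - ‖w‖ ^ 2 ≤ 1 := by nlinarith [norm_nonneg w]
  calc (R ^ 2 - ‖w‖ ^ 2) / ‖(R : ℂ) * Complex.exp (t * Complex.I) - w‖ ^ 2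
      ≤ 1 / ((1 - ‖w‖) / 2) ^ 2 := by
        apply div_le_div₀ (by norm_num) h5 (by positivity) h4
    _ = 4 / (1 - ‖w‖) ^ 2 := by field_simp; norm_num

theorem poissonInt_eq (h : ℝ → ℝ) (w : ℂ) :
    poissonInt h w = (2 * Real.pi)⁻¹ * ∫ t in (0 : ℝ)..2 * Real.pi, Kn w 1 t * h t := by
  unfold poissonInt Kn
  simp

theorem poisson_le (u : ℂ → ℝ) (hu : ContinuousOn u (ball 0 1)) (M : ℝ)
    (hb : ∀ z ∈ ball (0 : ℂ) 1, |u z| ≤ M) (w : ℂ) (hw : ‖w‖ < 1)
    (hharm : ∀ R : ℝ, ‖w‖ < R → R < 1 →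
      Real.circleAverage (poissonKernel 0 w • u) 0 R = u w)
    (ψ : ℝ → ℝ) (hψ : IntervalIntegrable ψ volume 0 (2 * Real.pi))
    (hle : ∀ᵐ t : ℝ, ∃ l : ℝ,
      Tendsto (fun r : ℝ => u (r * Complex.exp (t * Complex.I))) (𝓝[<] 1) (𝓝 l) ∧ l ≤ ψ t) :
    u w ≤ poissonInt ψ w := by
  have hM0 : 0 ≤ M := (abs_nonneg _).trans (hb 0 (by simp))
  have h2π : (0 : ℝ) ≤ 2 * Real.pi := by positivity
  set v : ℝ → ℝ := fun t => limUnder (𝓝[<] (1 : ℝ))
    (fun r : ℝ => u (r * Complex.exp (t * Complex.I))) with hv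
  have hvt : ∀ᵐ t : ℝ, Tendsto (fun r : ℝ => u (r * Complex.exp (t * Complex.I))) (𝓝[<] 1)
      (𝓝 (v t)) ∧ v t ≤ ψ t := by
    filter_upwards [hle] with t ht
    obtain ⟨l, hl, hlψ⟩ := ht
    have h1 := tendsto_nhds_limUnder ⟨l, hl⟩
    have h2 : v t = l := tendsto_nhds_unique h1 hl
    exact ⟨h1, by rw [h2]; exact hlψ⟩
  have hmem : ∀ (R t : ℝ), 0 ≤ R → R < 1 → (R : ℂ) * Complex.exp (t * Complex.I) ∈ ball (0 : ℂ) 1 := by
    intro R t h0 h1
    rw [mem_ball_zero_iff, norm_e R t h0]; exact h1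
  have hucont : ∀ R : ℝ, 0 ≤ R → R < 1 →
      Continuous (fun t : ℝ => u (R * Complex.exp (t * Complex.I))) := by
    intro R h0 h1
    apply hu.comp_continuous (by fun_prop)
    intro t
    exact hmem R t h0 h1
  -- bound for v
  have hvb : ∀ᵐ t : ℝ, |v t| ≤ M := by
    filter_upwards [hvt] with t ht
    apply le_of_tendsto ht.1.abs
    have : Ioo (0 : ℝ) 1 ∈ 𝓝[<] (1 : ℝ) := Ioo_mem_nhdsLT one_pos
    filter_upwards [this] with r hr
    exact hb _ (hmem r t hr.1.le hr.2)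
  -- measurability of v
  have hvm : AEStronglyMeasurable v volume := by
    have hseq : Tendsto (fun n : ℕ => 1 - 1 / ((n : ℝ) + 1)) atTop (𝓝[<] 1) := by
      apply tendsto_nhdsWithin_iff.mpr
      refine ⟨?_, ?_⟩
      · have := (tendsto_one_div_add_atTop_nhds_zero_nat (𝕜 := ℝ)).const_sub 1
        simpa using this
      · filter_upwards with n
        have : (0 : ℝ) < 1 / ((n : ℝ) + 1) := by positivity
        simp only [mem_Iio]; linarith
    apply aestronglyMeasurable_of_tendsto_ae (u := atTop)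
      (f := fun (n : ℕ) (t : ℝ) => u (((1 - 1 / ((n : ℝ) + 1) : ℝ) : ℂ) * Complex.exp (t * Complex.I)))
    · intro n
      apply (hucont _ _ _).aestronglyMeasurable
      · have : 1 / ((n : ℝ) + 1) ≤ 1 := by
          rw [div_le_one (by positivity)]; have := n.cast_nonneg (α := ℝ); linarith
        linarith
      · have : (0 : ℝ) < 1 / ((n : ℝ) + 1) := by positivity
        linarith
    · filter_upwards [hvt] with t ht
      exact ht.1.comp hseq
  have hvint : IntervalIntegrable v volume 0 (2 * Real.pi) := by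
    rw [intervalIntegrable_iff]
    apply Measure.integrableOn_of_bounded (M := M)
    · rw [uIoc_of_le h2π]; exact measure_Ioc_lt_top.ne
    · exact hvm
    · apply ae_restrict_of_ae
      filter_upwards [hvb] with t ht
      simpa using ht
  have hKc : ContinuousOn (Kn w 1) (uIcc 0 (2 * Real.pi)) := (Kn_cont_t w 1 hw).continuousOn
  have hlim : Tendsto (fun R : ℝ => ∫ t in (0 : ℝ)..2 * Real.pi,
      Kn w R t * u (R * Complex.exp (t * Complex.I))) (𝓝[<] 1)
      (𝓝 (∫ t in (0 : ℝ)..2 * Real.pi, Kn w 1 t * v t)) := by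
    have hnb : Ioo ((1 + ‖w‖) / 2) 1 ∈ 𝓝[<] (1 : ℝ) := Ioo_mem_nhdsLT (by linarith)
    apply intervalIntegral.tendsto_integral_filter_of_dominated_convergence
      (fun _ => 4 / (1 - ‖w‖) ^ 2 * M)
    · filter_upwards [hnb] with R hR
      have h1 : ‖w‖ < R := by linarith [hR.1]
      have h2 : 0 ≤ R := (norm_nonneg w).trans h1.le
      exact ((Kn_cont_t w R h1).mul (hucont R h2 hR.2)).aestronglyMeasurable
    · filter_upwards [hnb] with R hR
      have h1 : ‖w‖ < R := by linarith [hR.1]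
      have h2 : 0 ≤ R := (norm_nonneg w).trans h1.le
      filter_upwards with t _
      rw [norm_mul, Real.norm_eq_abs, Real.norm_eq_abs, abs_of_nonneg (Kn_nonneg w R t h1)]
      apply mul_le_mul (Kn_le w R t hw hR.1.le hR.2.le) (hb _ (hmem R t h2 hR.2)) (abs_nonneg _)
        (by positivity)
    · exact intervalIntegrable_const
    · filter_upwards [hvt] with t ht _
      exact (Kn_tendsto w hw t).mul ht.1
  have hconst : ∀ᶠ R in 𝓝[<] (1 : ℝ), (∫ t in (0 : ℝ)..2 * Real.pi,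
      Kn w R t * u (R * Complex.exp (t * Complex.I))) = 2 * Real.pi * u w := by
    have hnb : Ioo ((1 + ‖w‖) / 2) 1 ∈ 𝓝[<] (1 : ℝ) := Ioo_mem_nhdsLT (by linarith)
    filter_upwards [hnb] with R hR
    have h1 : ‖w‖ < R := by linarith [hR.1]
    have h2 : 0 ≤ R := (norm_nonneg w).trans h1.le
    have h3 := hharm R h1 hR.2
    rw [Real.circleAverage_def] at h3
    have h4 : (∫ θ in (0 : ℝ)..2 * Real.pi, (poissonKernel 0 w • u) (circleMap 0 R θ)) =
        ∫ t in (0 : ℝ)..2 * Real.pi, Kn w R t * u (R * Complex.exp (t * Complex.I)) := by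
      apply intervalIntegral.integral_congr
      intro t _
      simp only [Pi.smul_apply', smul_eq_mul]
      rw [Kn_eq w R t h2, circleMap_zero]
    rw [h4, smul_eq_mul] at h3
    have hpi : (2 * Real.pi) ≠ 0 := by positivity
    rw [← h3, ← mul_assoc, mul_inv_cancel₀ hpi, one_mul]
  have heq : (∫ t in (0 : ℝ)..2 * Real.pi, Kn w 1 t * v t) = 2 * Real.pi * u w := by
    apply tendsto_nhds_unique hlim
    exact tendsto_const_nhds.congr' (hconst.mono fun R h => h.symm)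
  have hmono : (∫ t in (0 : ℝ)..2 * Real.pi, Kn w 1 t * v t) ≤
      ∫ t in (0 : ℝ)..2 * Real.pi, Kn w 1 t * ψ t := by
    apply intervalIntegral.integral_mono_ae h2π (hvint.continuousOn_mul hKc)
      (hψ.continuousOn_mul hKc)
    filter_upwards [hvt] with t ht
    exact mul_le_mul_of_nonneg_left ht.2 (Kn_nonneg w 1 t hw)
  rw [poissonInt_eq]
  rw [heq] at hmono
  have hpi : 0 < 2 * Real.pi := by positivity
  rw [inv_mul_eq_div, le_div_iff₀ hpi]
  linarith

theorem poissonInt_one (w : ℂ) (hw : ‖w‖ < 1) : poissonInt (fun _ => 1) w = 1 := by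
  rw [poissonInt_eq]
  have h1 : InnerProductSpace.HarmonicOnNhd (fun _ : ℂ => (1 : ℝ)) (closedBall 0 1) := by
    intro x _
    exact InnerProductSpace.harmonicAt_const 1
  have h2 := h1.circleAverage_poissonKernel_smul (w := w) (by simpa using hw)
  rw [Real.circleAverage_def] at h2
  have h4 : (∫ θ in (0 : ℝ)..2 * Real.pi,
      (poissonKernel 0 w • (fun _ : ℂ => (1 : ℝ))) (circleMap 0 1 θ)) =
        ∫ t in (0 : ℝ)..2 * Real.pi, Kn w 1 t * 1 := by
    apply intervalIntegral.integral_congr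
    intro t _
    simp only [Pi.smul_apply', smul_eq_mul]
    rw [Kn_eq w 1 t (by norm_num)]
  rw [h4, smul_eq_mul] at h2
  exact h2

end Pool.Agent.X185.BS
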