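import Pool.Agent.X185.BS.Base
set_option autoImplicit false
set_option linter.all false

open Metric Set Filter Topology

noncomputable section

namespace Pool.Agent.X185.BS

/-- near-constancy of a self-map of the closed disc whose value at the centre is almost unimodular -/
theorem near_const (G : ℂ → ℂ) (hd : DifferentiableOn ℂ G (ball 0 1))
    (hm : ∀ z, ‖z‖ < 1 → ‖G z‖ ≤ 1) (h0 : 1 - 1 / 100000 ≤ ‖G 0‖) (z : ℂ) (hz : ‖z‖ ≤ 1 / 2) :
    ‖G z - G 0‖ ≤ 1 / 100 := by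
  obtain ⟨ρ, hρ⟩ : ∃ ρ : ℝ, ρ = 1 - 1 / 100000 := ⟨_, rfl⟩
  rw [← hρ] at h0
  have hρ0 : 0 < ρ := by rw [hρ]; norm_num
  have hρ1 : ρ < 1 := by rw [hρ]; norm_num
  have hnρ : ‖(ρ : ℂ)‖ = ρ := by rw [Complex.norm_real, Real.norm_eq_abs, abs_of_pos hρ0]
  have key := schwarz_pick (fun u => (ρ : ℂ) * G u) (hd.const_mul _)
    (by
      intro u hu
      rw [norm_mul, hnρ]
      have := hm u hu
      nlinarith [norm_nonneg (G u)]) z 0 (by linarith) (by simp)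
  simp only [map_zero, zero_mul, sub_zero, norm_zero, norm_one, one_pow, one_mul, mul_one,
    norm_mul, hnρ, ne_eq, OfNat.ofNat_ne_zero, not_false_eq_true, zero_pow] at key
  have hid := mob_id ((ρ : ℂ) * G z) ((ρ : ℂ) * G 0)
  rw [norm_mul, norm_mul, hnρ] at hid
  have e1 : ‖(ρ : ℂ) * G z - (ρ : ℂ) * G 0‖ = ρ * ‖G z - G 0‖ := by
    rw [← mul_sub, norm_mul, hnρ]
  rw [e1] at hid
  have hGz := hm z (by linarith)
  have hG0 := hm 0 (by simp)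
  have hz2 : ‖z‖ ^ 2 ≤ 1 / 4 := by nlinarith [norm_nonneg z]
  have hA : 0 ≤ 1 - (ρ * ‖G z‖) ^ 2 := by
    have : ρ * ‖G z‖ ≤ 1 := by nlinarith [norm_nonneg (G z)]
    have h2 : 0 ≤ ρ * ‖G z‖ := by positivity
    nlinarith
  have hA1 : 1 - (ρ * ‖G z‖) ^ 2 ≤ 1 := by
    have h2 : 0 ≤ (ρ * ‖G z‖) ^ 2 := by positivity
    linarith
  have hB : 1 - (ρ * ‖G 0‖) ^ 2 ≤ 4 / 100000 := by
    have h1 : ρ * ρ ≤ ρ * ‖G 0‖ := by nlinarith
    have h2 : 0 ≤ ρ * ρ := by positivity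
    have h3 : (ρ * ρ) ^ 2 ≤ (ρ * ‖G 0‖) ^ 2 := pow_le_pow_left₀ h2 h1 2
    have h4 : 1 - (ρ * ρ) ^ 2 ≤ 4 / 100000 := by rw [hρ]; norm_num
    linarith
  have hB0 : 0 ≤ 1 - (ρ * ‖G 0‖) ^ 2 := by
    have : ρ * ‖G 0‖ ≤ 1 := by nlinarith [norm_nonneg (G 0)]
    have h2 : 0 ≤ ρ * ‖G 0‖ := by positivity
    nlinarith
  have hU0 : 0 ≤ ‖1 - (starRingEnd ℂ) ((ρ : ℂ) * G 0) * ((ρ : ℂ) * G z)‖ ^ 2 := by positivity
  generalize ‖1 - (starRingEnd ℂ) ((ρ : ℂ) * G 0) * ((ρ : ℂ) * G z)‖ ^ 2 = U at *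
  have h5 : U * (3 / 4) ≤ 4 / 100000 := by
    have h6 : U * (3 / 4) ≤ U * (1 - ‖z‖ ^ 2) := by
      apply mul_le_mul_of_nonneg_left _ hU0; linarith
    have h7 : (1 - (ρ * ‖G z‖) ^ 2) * (1 - (ρ * ‖G 0‖) ^ 2) ≤ 1 * (4 / 100000) := by
      apply mul_le_mul hA1 hB hB0 (by norm_num)
    linarith
  have h8 : (ρ * ‖G z - G 0‖) ^ 2 ≤ U := by
    have : 0 ≤ (1 - (ρ * ‖G z‖) ^ 2) * (1 - (ρ * ‖G 0‖) ^ 2) := mul_nonneg hA hB0
    linarith
  have h9 : (ρ * ‖G z - G 0‖) ^ 2 ≤ 6 / 100000 := by linarith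
  by_contra hcon
  push Not at hcon
  have h10 : ρ * (1 / 100) < ρ * ‖G z - G 0‖ := by
    apply mul_lt_mul_of_pos_left hcon hρ0
  have h11 : (ρ * (1 / 100)) ^ 2 < (ρ * ‖G z - G 0‖) ^ 2 := by
    apply pow_lt_pow_left₀ h10 (by positivity) (by norm_num)
  have h12 : (6 / 100000 : ℝ) < (ρ * (1 / 100)) ^ 2 := by rw [hρ]; norm_num
  linarith

/-- `cosh` of the hyperbolic distance to the centre -/
def Y (a : ℂ) : ℝ := (1 + ‖a‖ ^ 2) / (1 - ‖a‖ ^ 2)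

theorem Y_formula (a p : ℂ) (ha : ‖a‖ < 1) (hp : ‖p‖ < 1) :
    Y ((p + a) / (1 + (starRingEnd ℂ) a * p)) =
      ((1 + ‖a‖ ^ 2) * (1 + ‖p‖ ^ 2) + 4 * ((starRingEnd ℂ) a * p).re) /
        ((1 - ‖a‖ ^ 2) * (1 - ‖p‖ ^ 2)) := by
  have hne : 1 + (starRingEnd ℂ) a * p ≠ 0 := by
    have := mob_ne p (-a) hp (by rwa [norm_neg])
    simpa using this
  have hn : 0 < ‖1 + (starRingEnd ℂ) a * p‖ ^ 2 := by
    have := norm_pos_iff.mpr hne
    positivity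
  have hid : ‖1 + (starRingEnd ℂ) a * p‖ ^ 2 - ‖p + a‖ ^ 2 = (1 - ‖p‖ ^ 2) * (1 - ‖a‖ ^ 2) := by
    have := mob_id p (-a)
    simpa using this
  have hid2 : ‖1 + (starRingEnd ℂ) a * p‖ ^ 2 + ‖p + a‖ ^ 2 =
      (1 + ‖a‖ ^ 2) * (1 + ‖p‖ ^ 2) + 4 * ((starRingEnd ℂ) a * p).re := by
    simp only [← Complex.normSq_eq_norm_sq, Complex.normSq_apply, Complex.add_re, Complex.add_im,
      Complex.mul_re, Complex.mul_im, Complex.one_re, Complex.one_im, Complex.conj_re,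
      Complex.conj_im]
    ring
  rw [Y, norm_div, div_pow, ← hid2, mul_comm (1 - ‖a‖ ^ 2), ← hid]
  generalize ‖1 + (starRingEnd ℂ) a * p‖ ^ 2 = N at *
  generalize ‖p + a‖ ^ 2 = M at *
  have e1 : 1 + M / N = (N + M) / N := by field_simp
  have e2 : 1 - M / N = (N - M) / N := by field_simp
  rw [e1, e2, div_div_div_cancel_right₀ hn.ne']

theorem Y_ge_one (a : ℂ) (ha : ‖a‖ < 1) : 1 ≤ Y a := by
  rw [Y, le_div_iff₀ (by nlinarith [norm_nonneg a])]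
  nlinarith [norm_nonneg a]

/-- discrete convexity -/
theorem disc_conv (a p q : ℂ) (ha : ‖a‖ < 1) (hp : ‖p‖ ≤ 1 / 2) (hq : ‖q‖ ≤ 1 / 2)
    (hp' : 0.49 ≤ ‖p‖) (hq' : 0.49 ≤ ‖q‖) (hpq : ‖p + q‖ ≤ 1 / 100) :
    3 * Y a ≤ Y ((p + a) / (1 + (starRingEnd ℂ) a * p)) +
      Y ((q + a) / (1 + (starRingEnd ℂ) a * q)) := by
  rw [Y_formula a p ha (by linarith), Y_formula a q ha (by linarith), Y]
  have hX : 0 < 1 - ‖a‖ ^ 2 := by nlinarith [norm_nonneg a]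
  have hP : 0 < 1 - ‖p‖ ^ 2 := by nlinarith [norm_nonneg p]
  have hQ : 0 < 1 - ‖q‖ ^ 2 := by nlinarith [norm_nonneg q]
  rw [← sub_nonneg]
  obtain ⟨P, hPd⟩ : ∃ P, P = ‖p‖ ^ 2 := ⟨_, rfl⟩
  obtain ⟨Q, hQd⟩ : ∃ Q, Q = ‖q‖ ^ 2 := ⟨_, rfl⟩
  obtain ⟨A, hAd⟩ : ∃ A, A = 1 + ‖a‖ ^ 2 := ⟨_, rfl⟩
  obtain ⟨X, hXd⟩ : ∃ X, X = 1 - ‖a‖ ^ 2 := ⟨_, rfl⟩
  rw [← hPd, ← hQd, ← hAd, ← hXd]
  rw [← hPd] at hP
  rw [← hQd] at hQ
  rw [← hXd] at hX
  have hP1 : P ≤ 1 / 4 := by rw [hPd]; nlinarith [norm_nonneg p]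
  have hQ1 : Q ≤ 1 / 4 := by rw [hQd]; nlinarith [norm_nonneg q]
  have hP2 : 0.24 ≤ P := by rw [hPd]; nlinarith [norm_nonneg p]
  have hQ2 : 0.24 ≤ Q := by rw [hQd]; nlinarith [norm_nonneg q]
  have hPQ : |P - Q| ≤ 1 / 100 := by
    have h1 : |‖p‖ - ‖q‖| ≤ ‖p + q‖ := by
      have := abs_norm_sub_norm_le p (-q)
      simpa using this
    have h2 : P - Q = (‖p‖ - ‖q‖) * (‖p‖ + ‖q‖) := by rw [hPd, hQd]; ring
    rw [h2, abs_mul, abs_of_nonneg (by positivity : 0 ≤ ‖p‖ + ‖q‖)]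
    calc |‖p‖ - ‖q‖| * (‖p‖ + ‖q‖) ≤ (1 / 100) * 1 := by
          apply mul_le_mul (h1.trans hpq) (by linarith) (by positivity) (by norm_num)
      _ = 1 / 100 := by norm_num
  -- the real part terms
  have hR : |((starRingEnd ℂ) a * p).re * (1 - Q) + ((starRingEnd ℂ) a * q).re * (1 - P)| ≤
      (A / 2) * (1 / 100 + 1 / 200) := by
    have e : ((starRingEnd ℂ) a * p).re * (1 - Q) + ((starRingEnd ℂ) a * q).re * (1 - P) =
        ((starRingEnd ℂ) a * ((p + q) * ((1 - Q : ℝ) : ℂ) + q * ((Q - P : ℝ) : ℂ))).re := by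
      simp only [Complex.mul_re, Complex.add_re, Complex.add_im, Complex.mul_im,
        Complex.ofReal_re, Complex.ofReal_im, Complex.conj_re, Complex.conj_im]
      ring
    rw [e]
    refine (Complex.abs_re_le_norm _).trans ?_
    rw [norm_mul, RCLike.norm_conj]
    have h1 : ‖(p + q) * ((1 - Q : ℝ) : ℂ) + q * ((Q - P : ℝ) : ℂ)‖ ≤ 1 / 100 + 1 / 200 := by
      refine (norm_add_le _ _).trans ?_
      rw [norm_mul, norm_mul, Complex.norm_real, Complex.norm_real, Real.norm_eq_abs,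
        Real.norm_eq_abs, abs_of_pos hQ, abs_sub_comm]
      have h2 : ‖p + q‖ * (1 - Q) ≤ (1 / 100) * 1 := by
        apply mul_le_mul hpq (by linarith) hQ.le (by norm_num)
      have h3 : ‖q‖ * |P - Q| ≤ (1 / 2) * (1 / 100) := by
        apply mul_le_mul hq hPQ (abs_nonneg _) (by norm_num)
      linarith
    have h4 : ‖a‖ ≤ A / 2 := by
      rw [hAd]; nlinarith [sq_nonneg (‖a‖ - 1)]
    exact mul_le_mul h4 h1 (norm_nonneg _) (by rw [hAd]; positivity)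
  have hR1 := (abs_le.mp hR).1
  have hA0 : 0 < A := by rw [hAd]; positivity
  have e2 : (A * (1 + P) + 4 * ((starRingEnd ℂ) a * p).re) / (X * (1 - P)) +
      (A * (1 + Q) + 4 * ((starRingEnd ℂ) a * q).re) / (X * (1 - Q)) - 3 * (A / X) =
      (A * ((1 + P) * (1 - Q) + (1 + Q) * (1 - P) - 3 * ((1 - P) * (1 - Q))) +
        4 * (((starRingEnd ℂ) a * p).re * (1 - Q) + ((starRingEnd ℂ) a * q).re * (1 - P))) /
        (X * ((1 - P) * (1 - Q))) := by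
    have := hX.ne'
    have := hP.ne'
    have := hQ.ne'
    field_simp
    ring
  rw [e2]
  apply div_nonneg _ (by positivity)
  have h6 : 0.03 ≤ (1 + P) * (1 - Q) + (1 + Q) * (1 - P) - 3 * ((1 - P) * (1 - Q)) := by
    nlinarith
  nlinarith

theorem mob_inv (a u : ℂ) (ha : ‖a‖ < 1) (hu : ‖u‖ < 1) :
    ((u - a) / (1 - (starRingEnd ℂ) a * u) + a) /
      (1 + (starRingEnd ℂ) a * ((u - a) / (1 - (starRingEnd ℂ) a * u))) = u := by
  have h1 := mob_ne u a hu ha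
  have h2 := mob_ne a a ha ha
  have e1 : (u - a) / (1 - (starRingEnd ℂ) a * u) + a =
      u * (1 - (starRingEnd ℂ) a * a) / (1 - (starRingEnd ℂ) a * u) := by
    rw [div_add' _ _ _ h1]
    congr 1
    ring
  have e2 : 1 + (starRingEnd ℂ) a * ((u - a) / (1 - (starRingEnd ℂ) a * u)) =
      (1 - (starRingEnd ℂ) a * a) / (1 - (starRingEnd ℂ) a * u) := by
    rw [← mul_div_assoc, add_comm, div_add' _ _ _ h1]
    congr 1
    ring
  rw [e1, e2, div_div_div_cancel_right₀ h1, mul_div_cancel_right₀ _ h2]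

theorem disc_step (h : ℂ → ℂ) (hd : DifferentiableOn ℂ h (ball 0 1))
    (hm : ∀ z, ‖z‖ < 1 → ‖h z‖ < 1)
    (h1 : (1 - 1 / 100000) * (1 - ‖h 0‖ ^ 2) ≤ ‖deriv h 0‖) :
    3 * Y (h 0) ≤ Y (h (1 / 2)) + Y (h (-1 / 2)) := by
  obtain ⟨a, ha⟩ : ∃ a, a = h 0 := ⟨_, rfl⟩
  have ha1 : ‖a‖ < 1 := by rw [ha]; exact hm 0 (by simp)
  set g : ℂ → ℂ := fun u => (h u - a) / (1 - (starRingEnd ℂ) a * h u) with hg
  have hgd : DifferentiableOn ℂ g (ball 0 1) := by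
    apply DifferentiableOn.div
    · exact hd.sub_const _
    · exact (differentiableOn_const _).sub (hd.const_mul _)
    · intro u hu
      exact mob_ne _ _ (hm u (by simpa using hu)) ha1
  have hg0 : g 0 = 0 := by simp [hg, ha]
  have hgm : MapsTo g (ball 0 1) (ball (g 0) 1) := by
    intro u hu
    rw [hg0, mem_ball_zero_iff]
    exact mob_lt _ _ (hm u (by simpa using hu)) ha1
  have hG : DifferentiableOn ℂ (dslope g 0) (ball 0 1) :=
    (Complex.differentiableOn_dslope (isOpen_ball.mem_nhds (mem_ball_self one_pos))).2 hgd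
  have hGm : ∀ z, ‖z‖ < 1 → ‖dslope g 0 z‖ ≤ 1 := by
    intro z hz
    have := Complex.norm_dslope_le_div_of_mapsTo_ball hgd
      (fun u hu => ball_subset_closedBall (hgm hu)) (z := z) (by simpa using hz)
    simpa using this
  have hX : 0 < 1 - ‖a‖ ^ 2 := by nlinarith [norm_nonneg a]
  have hG0 : dslope g 0 0 = deriv h 0 / ((1 - ‖a‖ ^ 2 : ℝ) : ℂ) := by
    rw [dslope_same]
    have hh : HasDerivAt h (deriv h 0) 0 :=
      (hd.differentiableAt (isOpen_ball.mem_nhds (mem_ball_self one_pos))).hasDerivAt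
    have h2 : HasDerivAt g (((deriv h 0) * (1 - (starRingEnd ℂ) a * h 0) -
        (h 0 - a) * (-((starRingEnd ℂ) a * deriv h 0))) / (1 - (starRingEnd ℂ) a * h 0) ^ 2) 0 := by
      apply HasDerivAt.div (hh.sub_const a)
      · exact (hh.const_mul _).const_sub _
      · exact mob_ne _ _ (hm 0 (by simp)) ha1
    rw [h2.deriv, ← ha]
    have e : (starRingEnd ℂ) a * a = ((‖a‖ ^ 2 : ℝ) : ℂ) := by
      rw [mul_comm, Complex.mul_conj, Complex.normSq_eq_norm_sq]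
    rw [e]
    have hX' : ((1 - ‖a‖ ^ 2 : ℝ) : ℂ) ≠ 0 := by exact_mod_cast hX.ne'
    push_cast at hX' ⊢
    field_simp
    ring
  have hG0n : 1 - 1 / 100000 ≤ ‖dslope g 0 0‖ := by
    rw [hG0, norm_div, Complex.norm_real, Real.norm_eq_abs, abs_of_pos hX, le_div_iff₀ hX]
    rwa [← ha] at h1
  have n1 : ‖(1 / 2 : ℂ)‖ = 1 / 2 := by norm_num
  have n2 : ‖(-1 / 2 : ℂ)‖ = 1 / 2 := by norm_num
  have c1 := near_const _ hG hGm hG0n (1 / 2) n1.le
  have c2 := near_const _ hG hGm hG0n (-1 / 2) n2.le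
  have hb1 := hGm (1 / 2) (by rw [n1]; norm_num)
  have hb2 := hGm (-1 / 2) (by rw [n2]; norm_num)
  have eg1 : g (1 / 2) = (1 / 2) * dslope g 0 (1 / 2) := by
    have := sub_smul_dslope g 0 (1 / 2)
    rw [hg0] at this
    simpa using this.symm
  have eg2 : g (-1 / 2) = (-1 / 2) * dslope g 0 (-1 / 2) := by
    have := sub_smul_dslope g 0 (-1 / 2)
    rw [hg0] at this
    simpa using this.symm
  have eh : ∀ u, ‖u‖ < 1 → (g u + a) / (1 + (starRingEnd ℂ) a * g u) = h u := by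
    intro u hu
    exact mob_inv a (h u) ha1 (hm u hu)
  have key := disc_conv a (g (1 / 2)) (g (-1 / 2)) ha1
    (by rw [eg1, norm_mul, n1]; linarith)
    (by rw [eg2, norm_mul, n2]; linarith)
    (by
      rw [eg1, norm_mul, n1]
      have := norm_sub_norm_le (dslope g 0 0) (dslope g 0 (1 / 2))
      rw [norm_sub_rev] at this
      linarith)
    (by
      rw [eg2, norm_mul, n2]
      have := norm_sub_norm_le (dslope g 0 0) (dslope g 0 (-1 / 2))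
      rw [norm_sub_rev] at this
      linarith)
    (by
      rw [eg1, eg2]
      have e : (1 / 2 : ℂ) * dslope g 0 (1 / 2) + (-1 / 2) * dslope g 0 (-1 / 2) =
          (1 / 2) * ((dslope g 0 (1 / 2) - dslope g 0 0) - (dslope g 0 (-1 / 2) - dslope g 0 0)) := by
        ring
      rw [e, norm_mul, n1]
      have := norm_sub_le (dslope g 0 (1 / 2) - dslope g 0 0) (dslope g 0 (-1 / 2) - dslope g 0 0)
      linarith)
  rw [eh _ (by rw [n1]; norm_num), eh _ (by rw [n2]; norm_num), ha] at key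
  exact key

end Pool.Agent.X185.BS
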